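import Pool.Agent.K1H76.MW.Core
import Pool.Agent.Y926.TW.Main

/-!
# The number of irrational odd zeta values in a window: several orders of derivatives at once
-/

open Pool.Agent.H337R2 Pool.Agent.W165.OZ Pool.Agent.Y926.LZ Pool.Agent.Y926.TW

namespace Pool.Agent.K1H76.MW

/-- the size of the parameters -/
lemma par_le' {b b' K S s : ℕ} (hb : b' ≤ b + 2) (hb2 : 2 ≤ b') (hbe : Even b') (hK : 1 ≤ K) (hS : 1 ≤ S)
    (hs1 : (2 : ℝ) ^ (66 * S) * ((b : ℝ) + 1) * (K : ℝ) * Real.log (K + 1) ≤ (s : ℝ))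
    (hs : (2 : ℝ) ^ (132 * S) * ((b : ℝ) + 1) * (K : ℝ) ^ 3 * Real.log (K + 1) ≤ (s : ℝ) ^ 2) :
    2 * hv b' K (Nat.clog 2 (2 * K)) S + bm b' ≤ s := by
  have hK' : (1 : ℝ) ≤ K := by exact_mod_cast hK
  have hS' : (1 : ℝ) ≤ S := by exact_mod_cast hS
  have hl := log_lb hK
  obtain ⟨l, hl'⟩ : ∃ l, l = Real.log ((K : ℝ) + 1) := ⟨_, rfl⟩
  rw [← hl'] at hl hs hs1
  obtain ⟨L, hL⟩ : ∃ L, L = Nat.clog 2 (2 * K) := ⟨_, rfl⟩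
  have hLl : (L : ℝ) ≤ 9 / 2 * l := by
    have h1 := clog_le (B := 2 * K) (by omega)
    rw [← hL] at h1
    have h2 : Real.log (((2 * K : ℕ) : ℝ) + 1) ≤ 7 / 10 + l := by
      have h3 : ((2 * K : ℕ) : ℝ) + 1 ≤ 2 * ((K : ℝ) + 1) := by push_cast; linarith
      have h4 : Real.log (((2 * K : ℕ) : ℝ) + 1) ≤ Real.log (2 * ((K : ℝ) + 1)) :=
        Real.log_le_log (by positivity) h3
      rw [Real.log_mul (by norm_num) (by positivity), ← hl'] at h4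
      have h5 : Real.log 2 < 0.6931471808 := Real.log_two_lt_d9
      linarith
    linarith
  rw [← hL]
  -- the bits
  have hX : (XS L S : ℝ) ≤ 166 * (l * S) := by
    unfold XS
    push_cast
    have h1 : l * 1 ≤ l * S := mul_le_mul_of_nonneg_left hS' (by linarith)
    have h2 : 69 / 100 * (S : ℝ) ≤ l * S := mul_le_mul_of_nonneg_right hl (by linarith)
    linarith
  have hX0 : (0 : ℝ) ≤ (XS L S : ℝ) := by positivity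
  have hlS : (0 : ℝ) ≤ l * S := by positivity
  have hb' : (b' : ℝ) ≤ b + 2 := by exact_mod_cast hb
  have hb2' : (2 : ℝ) ≤ b' := by exact_mod_cast hb2
  have hb0 : (0 : ℝ) ≤ b := by positivity
  have hbm : ((bm b' : ℕ) : ℝ) = 2 * b' - 2 := by
    unfold bm
    rw [Nat.cast_sub (by omega)]
    push_cast
    ring
  have hYv : (YS (bm b') K S : ℝ) ≤ 8 * ((K : ℝ) * (2 * (b' : ℝ) - 1) * 2 ^ (48 * S)) := by
    unfold YS rS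
    push_cast
    rw [hbm]
    have h1 : (1 : ℝ) ≤ 2 ^ (48 * S) := one_le_pow₀ (by norm_num)
    have h2 : (0 : ℝ) ≤ 2 * b' - 2 + 1 := by linarith
    calc 4 * (K : ℝ) * ((2 * (b' : ℝ) - 2 + 1) * (2 ^ (48 * S) + 1))
        ≤ 4 * (K : ℝ) * ((2 * (b' : ℝ) - 2 + 1) * (2 * 2 ^ (48 * S))) := by
          have h3 : (2 : ℝ) ^ (48 * S) + 1 ≤ 2 * 2 ^ (48 * S) := by linarith
          gcongr
      _ = _ := by ring
  have hY0 : (0 : ℝ) ≤ (YS (bm b') K S : ℝ) := by positivity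
  have hY2 : (YS (bm b') K S : ℝ) ^ 2 ≤
      64 * ((K : ℝ) ^ 2 * (2 * (b' : ℝ) - 1) ^ 2 * 2 ^ (96 * S)) := by
    have h2 : (0 : ℝ) ≤ 2 * b' - 1 := by linarith
    calc (YS (bm b') K S : ℝ) ^ 2 ≤ (8 * ((K : ℝ) * (2 * (b' : ℝ) - 1) * 2 ^ (48 * S))) ^ 2 := by gcongr
      _ = 64 * ((K : ℝ) ^ 2 * (2 * (b' : ℝ) - 1) ^ 2 * (2 ^ (48 * S)) ^ 2) := by ring
      _ = _ := by rw [← pow_mul]; congr 3; ring
  have hpw : (0 : ℝ) < 2 ^ (96 * S) := by positivity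
  -- the first term
  obtain ⟨U, hU⟩ : ∃ U : ℝ, U = ((b : ℝ) + 1) * (K : ℝ) ^ 3 * l := ⟨_, rfl⟩
  obtain ⟨W, hW⟩ : ∃ W : ℝ, W = ((b : ℝ) + 1) * (K : ℝ) * l := ⟨_, rfl⟩
  have hA1 : ((((2 * K * XS L S) * YS (bm b') K S ^ 2 / (b' / 2) : ℕ)) : ℝ) ≤
      191232 * ((S : ℝ) * 2 ^ (96 * S) * U) := by
    refine Nat.cast_div_le.trans ?_
    have hv : (((b' / 2 : ℕ)) : ℝ) = b' / 2 := by
      obtain ⟨t, ht⟩ := hbe
      have h3 : b' / 2 = t := by omega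
      rw [h3, ht]
      push_cast
      ring
    rw [hv]
    rw [div_le_iff₀ (by linarith)]
    push_cast
    have h3 : (2 * (b' : ℝ) - 1) ^ 2 ≤ 9 * ((b : ℝ) + 1) * (b' / 2) := by nlinarith
    have h4 : (2 * (K : ℝ) * XS L S) * (YS (bm b') K S : ℝ) ^ 2 ≤
        (2 * (K : ℝ) * (166 * (l * S))) * (64 * ((K : ℝ) ^ 2 * (9 * ((b : ℝ) + 1) * (b' / 2)) *
          2 ^ (96 * S))) := by
      refine mul_le_mul (by gcongr) (hY2.trans (by gcongr)) (by positivity) (by positivity)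
    refine h4.trans (le_of_eq ?_)
    rw [hU]
    ring
  -- the second term
  have hA2 : ((((XS L S * YS (bm b') K S) ^ 2 : ℕ)) : ℝ) ≤
      15872256 * ((S : ℝ) ^ 2 * 2 ^ (96 * S) * W ^ 2) := by
    push_cast
    rw [mul_pow]
    have h3 : (2 * (b' : ℝ) - 1) ^ 2 ≤ 9 * ((b : ℝ) + 1) ^ 2 := by nlinarith
    have h4 : (XS L S : ℝ) ^ 2 * (YS (bm b') K S : ℝ) ^ 2 ≤
        (166 * (l * S)) ^ 2 * (64 * ((K : ℝ) ^ 2 * (9 * ((b : ℝ) + 1) ^ 2) * 2 ^ (96 * S))) := by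
      refine mul_le_mul (by gcongr) (hY2.trans (by gcongr)) (by positivity) (by positivity)
    refine h4.trans (le_of_eq ?_)
    rw [hW]
    ring
  obtain ⟨a, ha⟩ : ∃ a, a = Nat.sqrt ((2 * K * XS L S) * YS (bm b') K S ^ 2 / (b' / 2) +
      (XS L S * YS (bm b') K S) ^ 2) := ⟨_, rfl⟩
  have ha2 : (a : ℝ) ^ 2 ≤ 191232 * ((S : ℝ) * 2 ^ (96 * S) * U) +
      15872256 * ((S : ℝ) ^ 2 * 2 ^ (96 * S) * W ^ 2) := by
    refine le_trans ?_ (add_le_add hA1 hA2)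
    have := Nat.sqrt_le' ((2 * K * XS L S) * YS (bm b') K S ^ 2 / (b' / 2) +
      (XS L S * YS (bm b') K S) ^ 2)
    rw [← ha] at this
    exact_mod_cast this
  have hT' : hv b' K L S = 16 * (a + 1) := by
    unfold hv hv1
    rw [← ha]
  rw [hT']
  -- the comparison
  have hU0 : 0 ≤ U := by
    rw [hU]
    positivity
  have hW1 : 69 / 100 * ((b : ℝ) + 1) ≤ W := by
    rw [hW]
    calc 69 / 100 * ((b : ℝ) + 1) = ((b : ℝ) + 1) * 1 * (69 / 100) := by ring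
      _ ≤ _ := by gcongr
  have hW0 : 0 ≤ W := by linarith
  have hSS : (S : ℝ) ≤ 2 ^ (S - 1) := by
    have h1 : S - 1 < 2 ^ (S - 1) := Nat.lt_two_pow_self
    have h2 : S ≤ 2 ^ (S - 1) := by omega
    exact_mod_cast h2
  have h2S : (2 : ℝ) ^ (132 * S) = 2 ^ (96 * S) * (2 ^ (34 * S) * (4 * (2 ^ (S - 1)) ^ 2)) := by
    rw [show (4 : ℝ) = 2 ^ 2 by norm_num, ← pow_mul, ← pow_add, ← pow_add, ← pow_add]
    congr 1
    omega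
  have h34 : (17000000000 : ℝ) ≤ 2 ^ (34 * S) := by
    calc (17000000000 : ℝ) ≤ 2 ^ 34 := by norm_num
      _ ≤ 2 ^ (34 * S) := pow_le_pow_right₀ (by norm_num) (by omega)
  have h96 : (1 : ℝ) ≤ 2 ^ (96 * S) := one_le_pow₀ (by norm_num)
  have hS2 : (1 : ℝ) ≤ (S : ℝ) ^ 2 := one_le_pow₀ hS'
  have hSS2 : (S : ℝ) ≤ (S : ℝ) ^ 2 := by nlinarith
  -- both hypotheses
  have c1 : 68000000000 * ((S : ℝ) ^ 2 * 2 ^ (96 * S) * U) ≤ (s : ℝ) ^ 2 := by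
    refine le_trans ?_ hs
    rw [mul_assoc ((2 : ℝ) ^ (132 * S)), mul_assoc ((2 : ℝ) ^ (132 * S)), ← hU, h2S]
    have e8 : (S : ℝ) ^ 2 ≤ (2 ^ (S - 1)) ^ 2 := by gcongr
    calc 68000000000 * ((S : ℝ) ^ 2 * 2 ^ (96 * S) * U)
        ≤ 68000000000 * ((2 ^ (S - 1)) ^ 2 * 2 ^ (96 * S) * U) := by gcongr
      _ = 2 ^ (96 * S) * (17000000000 * (4 * (2 ^ (S - 1)) ^ 2)) * U := by ring
      _ ≤ 2 ^ (96 * S) * (2 ^ (34 * S) * (4 * (2 ^ (S - 1)) ^ 2)) * U := by gcongr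
  have c2 : 68000000000 * ((S : ℝ) ^ 2 * 2 ^ (96 * S) * W ^ 2) ≤ (s : ℝ) ^ 2 := by
    have g1 : (2 : ℝ) ^ (132 * S) * W ^ 2 ≤ (s : ℝ) ^ 2 := by
      have g2 : (2 : ℝ) ^ (66 * S) * W ≤ s := by
        refine le_trans (le_of_eq ?_) hs1
        rw [hW]
        ring
      have g3 : ((2 : ℝ) ^ (66 * S) * W) ^ 2 ≤ (s : ℝ) ^ 2 := by gcongr
      refine le_trans (le_of_eq ?_) g3
      rw [mul_pow, ← pow_mul]
      congr 2
      ring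
    refine le_trans ?_ g1
    rw [h2S]
    have e8 : (S : ℝ) ^ 2 ≤ (2 ^ (S - 1)) ^ 2 := by gcongr
    calc 68000000000 * ((S : ℝ) ^ 2 * 2 ^ (96 * S) * W ^ 2)
        ≤ 68000000000 * ((2 ^ (S - 1)) ^ 2 * 2 ^ (96 * S) * W ^ 2) := by gcongr
      _ = 2 ^ (96 * S) * (17000000000 * (4 * (2 ^ (S - 1)) ^ 2)) * W ^ 2 := by ring
      _ ≤ 2 ^ (96 * S) * (2 ^ (34 * S) * (4 * (2 ^ (S - 1)) ^ 2)) * W ^ 2 := by gcongr
  have key : ((2 * (16 * (a + 1)) + bm b' : ℕ) : ℝ) ^ 2 ≤ (s : ℝ) ^ 2 := by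
    have e1 : ((2 * (16 * (a + 1)) + bm b' : ℕ) : ℝ) ^ 2 ≤
        2048 * (a : ℝ) ^ 2 + 2 * (34 * ((b : ℝ) + 1)) ^ 2 := by
      push_cast
      rw [hbm]
      have e2 : (32 : ℝ) + (2 * b' - 2) ≤ 34 * (b + 1) := by linarith
      have e3 : (0 : ℝ) ≤ a := by positivity
      have e4 : (0 : ℝ) ≤ 2 * (b' : ℝ) - 2 := by linarith
      calc (2 * (16 * ((a : ℝ) + 1)) + (2 * (b' : ℝ) - 2)) ^ 2
          = (32 * (a : ℝ) + (32 + (2 * (b' : ℝ) - 2))) ^ 2 := by ring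
        _ ≤ (32 * (a : ℝ) + 34 * ((b : ℝ) + 1)) ^ 2 := by gcongr
        _ ≤ 2048 * (a : ℝ) ^ 2 + 2 * (34 * ((b : ℝ) + 1)) ^ 2 := by
            nlinarith [sq_nonneg (32 * (a : ℝ) - 34 * ((b : ℝ) + 1))]
    refine e1.trans ?_
    obtain ⟨P, hP⟩ : ∃ P : ℝ, P = (S : ℝ) ^ 2 * 2 ^ (96 * S) * U := ⟨_, rfl⟩
    obtain ⟨Q, hQ⟩ : ∃ Q : ℝ, Q = (S : ℝ) ^ 2 * 2 ^ (96 * S) * W ^ 2 := ⟨_, rfl⟩
    rw [← hP] at c1
    rw [← hQ] at c2 ha2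
    have e5 : 2 * (34 * ((b : ℝ) + 1)) ^ 2 ≤ 5000 * Q := by
      have e6 : 2 * (34 * ((b : ℝ) + 1)) ^ 2 ≤ 5000 * W ^ 2 := by nlinarith
      refine e6.trans ?_
      have e7 : W ^ 2 * 1 ≤ W ^ 2 * ((S : ℝ) ^ 2 * 2 ^ (96 * S)) := by
        apply mul_le_mul_of_nonneg_left _ (by positivity)
        calc (1 : ℝ) = 1 * 1 := by ring
          _ ≤ _ := by gcongr
      rw [hQ]
      linarith
    have e9 : (S : ℝ) * 2 ^ (96 * S) * U ≤ P := by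
      rw [hP]
      gcongr
    have e10 : 0 ≤ P := by
      rw [hP]
      positivity
    have e11 : 0 ≤ Q := by
      rw [hQ]
      positivity
    linarith
  have := (pow_le_pow_iff_left₀ (by positivity) (by positivity) (by norm_num : (2 : ℕ) ≠ 0)).1 key
  exact_mod_cast this

/-- the window version -/
theorem window_core {b K S s : ℕ} (hK : 1 ≤ K) (hS : 1 ≤ S)
    (hs1 : (2 : ℝ) ^ (66 * S) * ((b : ℝ) + 1) * (K : ℝ) * Real.log (K + 1) ≤ (s : ℝ))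
    (hs : (2 : ℝ) ^ (132 * S) * ((b : ℝ) + 1) * (K : ℝ) ^ 3 * Real.log (K + 1) ≤ (s : ℝ) ^ 2) :
    ∃ q0 : ℕ, ∀ q ≥ q0, ∀ I : Finset ℕ, (∀ j, Odd j → b < j → j ≤ s → j ∉ I →
      ∃ p : ℤ, |(q : ℝ) * zr j - p| < (q : ℝ) ^ (-(1 / (S : ℝ)))) → K ≤ I.card := by
  obtain ⟨b', hb', hb1, hb2⟩ := exists_even b
  have hb2' : 2 ≤ b' := by
    rcases hb' with ⟨t, ht⟩
    omega
  have hpar := par_le' (b := b) (b' := b') hb2 hb2' hb' hK hS hs1 hs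
  obtain ⟨q0, hq0⟩ := mw_core (L := Nat.clog 2 (2 * K)) hb' hb2' hK
    (Nat.le_pow_clog (by norm_num) _) hS
  refine ⟨q0, fun q hq I hI => hq0 q hq I fun j h1 h2 h3 h4 => ?_⟩
  exact hI j h1 (by omega) (by omega) h4

/-- **Simultaneous approximation.** -/
theorem window_sim {b K S s : ℕ} (hK : 1 ≤ K) (hS : 1 ≤ S)
    (hs1 : (2 : ℝ) ^ (66 * S) * ((b : ℝ) + 1) * (K : ℝ) * Real.log (K + 1) ≤ (s : ℝ))
    (hs : (2 : ℝ) ^ (132 * S) * ((b : ℝ) + 1) * (K : ℝ) ^ 3 * Real.log (K + 1) ≤ (s : ℝ) ^ 2) :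
    ∃ q0 : ℕ, ∀ q ≥ q0, K ≤ Set.ncard {j : ℕ | b < j ∧ j ≤ s ∧ Odd j ∧
      ∀ p : ℤ, (q : ℝ) ^ (-(1 / (S : ℝ))) ≤ |(q : ℝ) * (∑' n : ℕ, 1 / ((n : ℝ) + 1) ^ j) - p|} := by
  obtain ⟨q0, hq0⟩ := window_core (b := b) hK hS hs1 hs
  refine ⟨q0, fun q hq => ?_⟩
  obtain ⟨I, hI, hset⟩ := mem_win b s (fun j =>
    ∀ p : ℤ, (q : ℝ) ^ (-(1 / (S : ℝ))) ≤ |(q : ℝ) * (∑' n : ℕ, 1 / ((n : ℝ) + 1) ^ j) - p|)
  rw [hset, Set.ncard_coe_finset]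
  refine hq0 q hq I fun j h1 h2 h3 h4 => ?_
  by_contra hc
  push Not at hc
  exact h4 ((hI j).2 ⟨h2, h3, h1, hc⟩)

/-- **Irrational values.** -/
theorem window_irr {b K s : ℕ} (hK : 1 ≤ K)
    (hs1 : (2 : ℝ) ^ 66 * ((b : ℝ) + 1) * (K : ℝ) * Real.log (K + 1) ≤ (s : ℝ))
    (hs : (2 : ℝ) ^ 132 * ((b : ℝ) + 1) * (K : ℝ) ^ 3 * Real.log (K + 1) ≤ (s : ℝ) ^ 2) :
    K ≤ Set.ncard {j : ℕ | b < j ∧ j ≤ s ∧ Odd j ∧ Irrational (∑' n : ℕ, 1 / ((n : ℝ) + 1) ^ j)} := by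
  classical
  obtain ⟨I, hI, hset⟩ := mem_win b s (fun j => Irrational (∑' n : ℕ, 1 / ((n : ℝ) + 1) ^ j))
  rw [hset, Set.ncard_coe_finset]
  obtain ⟨q0, hq0⟩ := window_core (b := b) (K := K) (S := 1) (s := s) hK le_rfl (by simpa using hs1)
    (by simpa using hs)
  -- the rational values
  have hr : ∀ j, ∃ x : ℚ, (Odd j → b < j → j ≤ s → j ∉ I → zr j = x) := by
    intro j
    by_cases hc : Odd j ∧ b < j ∧ j ≤ s ∧ j ∉ I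
    · have h1 : ¬ Irrational (∑' n : ℕ, 1 / ((n : ℝ) + 1) ^ j) := fun h =>
        hc.2.2.2 ((hI j).2 ⟨hc.2.1, hc.2.2.1, hc.1, h⟩)
      unfold Irrational at h1
      rw [not_not] at h1
      obtain ⟨x, hx⟩ := h1
      exact ⟨x, fun _ _ _ _ => hx.symm⟩
    · exact ⟨0, fun h1 h2 h3 h4 => absurd ⟨h1, h2, h3, h4⟩ hc⟩
  choose x hx using hr
  obtain ⟨M, hM⟩ : ∃ M, M = ∏ j ∈ Finset.range (s + 1), (x j).den := ⟨_, rfl⟩
  have hM1 : 1 ≤ M := by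
    rw [hM]
    exact Nat.one_le_iff_ne_zero.2 (Finset.prod_ne_zero_iff.2 fun j _ => (x j).den_nz)
  refine hq0 (M * (q0 + 1)) ?_ I fun j h1 h2 h3 h4 => ?_
  · have : 1 * (q0 + 1) ≤ M * (q0 + 1) := Nat.mul_le_mul_right _ hM1
    omega
  · obtain ⟨e, he⟩ : (x j).den ∣ M * (q0 + 1) := by
      rw [hM]
      exact Dvd.dvd.mul_right (Finset.dvd_prod_of_mem (fun j => (x j).den)
        (Finset.mem_range.2 (by omega))) _
    refine ⟨(x j).num * e, ?_⟩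
    have h5 : (((x j).den : ℕ) : ℝ) * ((x j : ℚ) : ℝ) = ((x j).num : ℝ) := by
      exact_mod_cast Rat.den_mul_eq_num (x j)
    have h6 : ((M * (q0 + 1) : ℕ) : ℝ) * zr j - (((x j).num * e : ℤ) : ℝ) = 0 := by
      rw [hx j h1 h2 h3 h4, he]
      push_cast
      rw [← h5]
      ring
    rw [h6, abs_zero]
    apply Real.rpow_pos_of_pos
    have : 0 < M * (q0 + 1) := Nat.mul_pos hM1 (by omega)
    exact_mod_cast this

/-- both parts -/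
theorem main : ∀ b K s S : ℕ, 1 ≤ K → 1 ≤ S →
    (2 : ℝ) ^ (66 * S) * ((b : ℝ) + 1) * (K : ℝ) * Real.log (K + 1) ≤ (s : ℝ) →
    (2 : ℝ) ^ (132 * S) * ((b : ℝ) + 1) * (K : ℝ) ^ 3 * Real.log (K + 1) ≤ (s : ℝ) ^ 2 →
    K ≤ Set.ncard {j : ℕ | b < j ∧ j ≤ s ∧ Odd j ∧ Irrational (∑' n : ℕ, 1 / ((n : ℝ) + 1) ^ j)} ∧
    ∃ q0 : ℕ, ∀ q ≥ q0, K ≤ Set.ncard {j : ℕ | b < j ∧ j ≤ s ∧ Odd j ∧
      ∀ p : ℤ, (q : ℝ) ^ (-(1 / (S : ℝ))) ≤ |(q : ℝ) * (∑' n : ℕ, 1 / ((n : ℝ) + 1) ^ j) - p|} := by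
  intro b K s S hK hS hs1 hs
  have hl : 0 ≤ Real.log ((K : ℝ) + 1) := Real.log_nonneg (by
    have : (0 : ℝ) ≤ K := by positivity
    linarith)
  have h1 : (2 : ℝ) ^ 132 ≤ 2 ^ (132 * S) := pow_le_pow_right₀ (by norm_num) (by omega)
  have h2 : (2 : ℝ) ^ 66 ≤ 2 ^ (66 * S) := pow_le_pow_right₀ (by norm_num) (by omega)
  refine ⟨window_irr hK (le_trans ?_ hs1) (le_trans ?_ hs), window_sim hK hS hs1 hs⟩
  · gcongr
  · gcongr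

end Pool.Agent.K1H76.MW
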