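import Pool.Agent.K1H76.MW.Tel
import Pool.Agent.Y926.TW.J_ZT
import Pool.Agent.Y926.TW.J_DUAL
import Pool.Agent.Y926.TW.J_REC
import Pool.Agent.Y926.TW.J_SYM
import Pool.Agent.Y926.TW.J_NOD

/-!
# Assembly of the zero estimate for several orders of derivatives
-/

open Polynomial Pool.Agent.H337R2 Pool.Agent.W165.OZ Pool.Agent.Y926.LZ Pool.Agent.Y926.TW

namespace Pool.Agent.K1H76.MW

noncomputable section

/-- the degree inequality -/
lemma ztv_ineq {m m1 D b N N1 L μ h B G n V : ℕ} (hm1 : 1 ≤ m1) (hmm : m1 ≤ m) (hmL : m + V ≤ L)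
    (hmn : m + V < n) (hV : 1 ≤ V) (hN1 : N1 ≤ B ^ 2) (hsl : m1 * N ≤ m * N1)
    (h1 : m * D ≤ (b + 1) * (N * L) + μ + m)
    (h2 : μ + (m + V * ((m + V) * (V * ((b + 1) * B ^ 2))) + h * (V * (m + V)) +
      (b + 1) * (B ^ 2 * (m + V))) ≤ V * G)
    (h3 : 2 * D + 2 * G + 3 ≤ n * (2 * h)) (hD : 1 ≤ D) :
    m1 * (2 * D - 2) + V * ((n * (2 * h) - 2 * G - 3) + (m1 + V) * (V * (2 * ((b + 1) * B ^ 2)))) <
      2 * h * V * (n - (m1 + V)) + (b + 1) * (N1 * (2 * L - (m1 + V))) := by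
  have hm : 0 < m := by omega
  have k1 : m1 * D ≤ (b + 1) * (N1 * L) + μ + m := by
    refine Nat.le_of_mul_le_mul_left ?_ hm
    calc m * (m1 * D) = m1 * (m * D) := by ring
      _ ≤ m1 * ((b + 1) * (N * L) + μ + m) := Nat.mul_le_mul_left _ h1
      _ = (b + 1) * L * (m1 * N) + m1 * (μ + m) := by ring
      _ ≤ (b + 1) * L * (m * N1) + m * (μ + m) := by gcongr
      _ = m * ((b + 1) * (N1 * L) + μ + m) := by ring
  obtain ⟨DA, hDA⟩ : ∃ DA, DA = n * (2 * h) - 2 * G - 3 := ⟨_, rfl⟩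
  have hDA2 : DA + 2 * G + 3 = n * (2 * h) := by omega
  obtain ⟨n', hn'⟩ : ∃ n', n' = n - (m1 + V) := ⟨_, rfl⟩
  have hn2 : n' + (m1 + V) = n := by omega
  obtain ⟨L', hL'⟩ : ∃ L', L' = 2 * L - (m1 + V) := ⟨_, rfl⟩
  have hL2 : L' + (m1 + V) = 2 * L := by omega
  obtain ⟨D', hD'⟩ : ∃ D', D' = 2 * D - 2 := ⟨_, rfl⟩
  have hD2 : D' + 2 = 2 * D := by omega
  rw [← hDA, ← hn', ← hL', ← hD']
  have e1 : m1 * D' + 2 * m1 = 2 * (m1 * D) := by
    calc m1 * D' + 2 * m1 = m1 * (D' + 2) := by ring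
      _ = 2 * (m1 * D) := by rw [hD2]; ring
  have e2 : V * DA + 2 * (V * G) + 3 * V = V * (n * (2 * h)) := by
    rw [← hDA2]; ring
  have e3 : 2 * h * V * n' + 2 * (h * (V * (m1 + V))) = V * (n * (2 * h)) := by
    rw [← hn2]; ring
  have e4 : (b + 1) * (N1 * L') + (b + 1) * (N1 * (m1 + V)) = 2 * ((b + 1) * (N1 * L)) := by
    calc (b + 1) * (N1 * L') + (b + 1) * (N1 * (m1 + V)) = (b + 1) * (N1 * (L' + (m1 + V))) := by ring
      _ = _ := by rw [hL2]; ring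
  have q1 : h * (V * (m1 + V)) ≤ h * (V * (m + V)) := by gcongr
  have q2 : (b + 1) * (N1 * (m1 + V)) ≤ (b + 1) * (B ^ 2 * (m + V)) := by gcongr
  have q3 : V * ((m1 + V) * (V * (2 * ((b + 1) * B ^ 2)))) ≤
      2 * (V * ((m + V) * (V * ((b + 1) * B ^ 2)))) := by
    calc V * ((m1 + V) * (V * (2 * ((b + 1) * B ^ 2))))
        ≤ V * ((m + V) * (V * (2 * ((b + 1) * B ^ 2)))) := by gcongr
      _ = _ := by ring
  rw [mul_add V DA]
  omega

/-- the forms of several orders do not all vanish -/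
theorem ztv (z : ℕ → ℚ) {b bm B m h ν L D μ G V : ℕ} {w : Fin m → ℕ → ℤ} {Q : Fin m → ℚ[X]}
    (hb : Even b) (hV : 1 ≤ V) (hbm : b + 2 * V ≤ bm + 2) (hh : 1 ≤ h)
    (hmL : m + V ≤ L) (hmν : m + V ≤ 2 * ν) (hSlp : Slp B m w) (hQ0 : ∃ l, Q l ≠ 0)
    (hQD : ∀ l, (Q l).natDegree + 1 ≤ D) (hVan : Van bm B ν L w Q)
    (h1 : m * D ≤ (bm + 1) * (NN B (fun l d => (w l d : ℚ)) * L) + μ + m)
    (h2 : μ + (m + V * ((m + V) * (V * ((bm + 1) * B ^ 2))) + h * (V * (m + V)) +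
      (bm + 1) * (B ^ 2 * (m + V))) ≤ V * G)
    (h3 : 2 * D + 2 * G + 3 ≤ (2 * ν + 1) * (2 * h)) :
    ∃ i < V, ∃ j ≤ G,
      LQ z (2 * ν + 1) h (b + 2 * i) B (fun d => Gb (2 * ν + 1) j * Pv w Q d) ≠ 0 := by
  classical
  by_contra hcon
  push Not at hcon
  set n : ℕ := 2 * ν + 1 with hn
  obtain ⟨hind, hzero, hslope⟩ := hSlp
  have hev : ∀ i : ℕ, Even (b + 2 * i) := fun i => hb.add (even_two_mul i)
  -- step 1
  have hAex : ∀ i : Fin V, ∃ A : ℚ[X], A.natDegree + (2 * G + 1) + 2 ≤ n * (2 * h) ∧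
      ∀ k < n, (PowerSeries.X : PowerSeries ℚ) ^ (2 * h) ∣
        TS (-(k : ℚ)) A - Es z n h (b + 2 * i) B (Pv w Q) k := by
    intro i
    have hsym := t_sym z n h (b + 2 * i) B G (Pv w Q) (by omega) hh (hcon i i.2)
    exact t_dual n h (2 * G + 1) (Es z n h (b + 2 * i) B (Pv w Q)) (by omega) hh (by omega) hsym
  choose A hAdeg hA using hAex
  -- step 2
  obtain ⟨m1, Q', a, hm1, hm1m, hQ'ind, haind, hQQ', hQ'D⟩ := zt_basis Q hQ0 hQD
  have hD1 : 1 ≤ D := le_trans (Nat.le_add_left _ _) (hQ'D ⟨0, hm1⟩)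
  set c : Fin m1 → ℕ → ℚ := fun i d => ∑ l, a i l * (w l d : ℚ) with hc
  have hPv : ∀ d, Pv w Q d = ∑ i, C (c i d) * Q' i := by
    intro d
    unfold Pv
    have := zt_comb (fun l => (w l d : ℚ)) a Q Q' hQQ'
    exact this
  have hfe : ∀ e, fe B w Q e = ∑ i, C (Cd B (c i) e) * Q' i := by
    intro e
    unfold fe
    rw [zt_comb (fun l => Cd B (fun d => (w l d : ℚ)) e) a Q Q' hQQ']
    refine Finset.sum_congr rfl (fun i _ => ?_)
    rw [hc, zt_Cd_sum]
  -- step 3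
  obtain ⟨Nd, hNd1, hNd2⟩ := t_nod (su B c) ν L (m1 + V) (fun e he => by
    unfold su at he
    exact (Finset.mem_Icc.1 (Finset.mem_filter.1 he).1).1) (by omega)
  have hN1 : (∑ e ∈ su B c, e.totient) = NN B c := rfl
  rw [hN1] at hNd1
  obtain ⟨Ps, hPs⟩ : ∃ Ps : Fin V → ℚ[X], ∀ i, Ps i = Pi1 n (b + 2 * i) B := ⟨_, fun _ => rfl⟩
  obtain ⟨Pj, hPj⟩ : ∃ Pj : ℚ[X], Pj = ∏ i, Ps i := ⟨_, rfl⟩
  obtain ⟨Rj, hRj⟩ : ∃ Rj : Fin V → ℚ[X], ∀ i, Rj i = ∏ i' ∈ Finset.univ.erase i, Ps i' :=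
    ⟨_, fun _ => rfl⟩
  have hPsR : ∀ i, Ps i * Rj i = Pj := by
    intro i
    rw [hRj, hPj]
    exact Finset.mul_prod_erase Finset.univ Ps (Finset.mem_univ i)
  have hPs0 : ∀ i, Ps i ≠ 0 := fun i => by rw [hPs]; exact zt_Pi1_ne _ _ _
  have hPj0 : Pj ≠ 0 := by
    rw [hPj]
    exact Finset.prod_ne_zero_iff.2 fun i _ => hPs0 i
  have hRj0 : ∀ i, Rj i ≠ 0 := fun i => by
    rw [hRj]
    exact Finset.prod_ne_zero_iff.2 fun i _ => hPs0 i
  have hbi : ∀ i : Fin V, b + 2 * (i : ℕ) + 1 ≤ bm + 1 := fun i => by have := i.2; omega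
  obtain ⟨c0, hc0⟩ : ∃ c0, c0 = 2 * ((bm + 1) * B ^ 2) := ⟨_, rfl⟩
  have hPsd : ∀ i, (Ps i).natDegree ≤ c0 := by
    intro i
    rw [hPs, hc0]
    refine (zt_deg_Pi1 n (b + 2 * i) B).trans ?_
    have := hbi i
    gcongr
  have hPjd : Pj.natDegree ≤ V * c0 := by
    rw [hPj]
    refine (natDegree_prod_le _ _).trans ?_
    refine (Finset.sum_le_card_nsmul _ _ c0 fun i _ => hPsd i).trans ?_
    rw [Finset.card_univ, Fintype.card_fin, smul_eq_mul]
  have hRjd : ∀ i, (Rj i).natDegree ≤ (V - 1) * c0 := by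
    intro i
    rw [hRj]
    refine (natDegree_prod_le _ _).trans ?_
    refine (Finset.sum_le_card_nsmul _ _ c0 fun i _ => hPsd i).trans ?_
    rw [Finset.card_erase_of_mem (Finset.mem_univ i), Finset.card_univ, Fintype.card_fin, smul_eq_mul]
  obtain ⟨η, hη⟩ : ∃ η : Fin V → Fin m1 → ℚ[X], ∀ i l, η i l =
      (∑ d ∈ Finset.Icc 1 B, C (c l d) * Y926.TW.eta n (b + 2 * i) B d) * Rj i := ⟨_, fun _ _ => rfl⟩
  have hlin : LinearIndependent ℚ (fun i => (Q' i).comp (yp n)) := by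
    have h4 := hQ'ind.map' (aeval (yp n) : ℚ[X] →ₐ[ℚ] ℚ[X]).toLinearMap (by
      rw [LinearMap.ker_eq_bot']
      intro p hp
      have h5 : p.comp (yp n) = 0 := by
        rw [← hp]
        simp [aeval_def, comp, eval₂_eq_eval_map, algebraMap_eq]
      by_contra hp0
      rcases comp_eq_zero_iff.1 h5 with h6 | ⟨_, h6⟩
      · exact hp0 h6
      · have h7 := zt_yp_deg n
        rw [h6, natDegree_C] at h7
        omega)
    have h6 : (fun i => (Q' i).comp (yp n)) =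
        ⇑((aeval (yp n) : ℚ[X] →ₐ[ℚ] ℚ[X]).toLinearMap) ∘ Q' := by
      funext i
      simp [aeval_def, comp, eval₂_eq_eval_map, algebraMap_eq]
    rw [h6]
    exact h4
  have hA2 : ∀ i, (A i).natDegree ≤ n * (2 * h) - 2 * G - 3 := by
    intro i
    have := hAdeg i
    omega
  have hdegQ : ∀ i, ((Q' i).comp (yp n)).natDegree ≤ 2 * D - 2 := by
    intro i
    rw [natDegree_comp, zt_yp_deg]
    have := hQ'D i
    omega
  have hdegeta : ∀ i l, (η i l).natDegree ≤ V * c0 := by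
    intro i l
    rw [hη]
    refine natDegree_mul_le.trans ?_
    have e1 : (∑ d ∈ Finset.Icc 1 B, C (c l d) * Y926.TW.eta n (b + 2 * i) B d).natDegree ≤ c0 := by
      refine natDegree_sum_le_of_forall_le _ _ (fun d hd => ?_)
      refine (natDegree_C_mul_le _ _).trans ?_
      refine (zt_deg_eta n (b + 2 * i) B d hd).trans ?_
      rw [hc0]
      have := hbi i
      gcongr
    have e2 := hRjd i
    obtain ⟨V', hV'⟩ : ∃ V', V = V' + 1 := ⟨V - 1, by omega⟩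
    have e3 : (V - 1) * c0 + c0 = V * c0 := by
      rw [hV', Nat.add_sub_cancel]
      ring
    omega
  have hEs : ∀ (i : Fin V) (k : ℕ), Es z n h (b + 2 * i) B (Pv w Q) k =
      ∑ l, TS (-(k : ℚ)) ((Q' l).comp (yp n)) *
        ∑ d ∈ Finset.Icc 1 B, PowerSeries.C (c l d) * bs z n h (b + 2 * i) d k := by
    intro i k
    unfold Es
    have h4 : ∀ d, TS (-(k : ℚ)) ((Pv w Q d).comp (yp n)) * bs z n h (b + 2 * i) d k =
        ∑ l, TS (-(k : ℚ)) ((Q' l).comp (yp n)) *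
          (PowerSeries.C (c l d) * bs z n h (b + 2 * i) d k) := by
      intro d
      rw [hPv d, sum_comp, map_sum, Finset.sum_mul]
      refine Finset.sum_congr rfl (fun i _ => ?_)
      rw [mul_comp, C_comp, map_mul, TS_C]
      ring
    rw [Finset.sum_congr rfl (fun d _ => h4 d), Finset.sum_comm]
    exact Finset.sum_congr rfl (fun i _ => (Finset.mul_sum _ _ _).symm)
  obtain ⟨κ, hκ, u, hu⟩ := zev (m := m1) (V := V) (n := n) (T := 2 * h) (b := bm) (c := V * c0)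
    (D := 2 * D - 2) (DA := n * (2 * h) - 2 * G - 3) (Q := fun i => (Q' i).comp (yp n)) (A := A)
    (Pj := Pj) (η := η)
    (β := fun i k l => ∑ d ∈ Finset.Icc 1 B, PowerSeries.C (c l d) * bs z n h (b + 2 * i) d k)
    (Nd := Nd) hlin hPj0 hdegQ (by omega) hA2 hPjd hdegeta
    (fun i k hk => by
      have h4 := hA i k hk
      rw [hEs i k] at h4
      have h5 := (dvd_neg).2 h4
      rwa [neg_sub] at h5)
    (fun i k hk l => by
      have e1 : TS (-(k : ℚ)) Pj * (∑ d ∈ Finset.Icc 1 B, PowerSeries.C (c l d) *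
          bs z n h (b + 2 * i) d (k + 1) - ∑ d ∈ Finset.Icc 1 B, PowerSeries.C (c l d) *
          bs z n h (b + 2 * i) d k) - TS (-(k : ℚ)) (η i l) =
          TS (-(k : ℚ)) (Rj i) * ∑ d ∈ Finset.Icc 1 B, PowerSeries.C (c l d) *
            (TS (-(k : ℚ)) (Pi1 n (b + 2 * i) B) * (bs z n h (b + 2 * i) d (k + 1) -
              bs z n h (b + 2 * i) d k) - TS (-(k : ℚ)) (Y926.TW.eta n (b + 2 * i) B d)) := by
        rw [hη, ← hPsR i, hPs, map_mul, map_mul, map_sum, Finset.mul_sum]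
        have e2 : ∀ d ∈ Finset.Icc 1 B, TS (-(k : ℚ)) (Rj i) * (PowerSeries.C (c l d) *
            (TS (-(k : ℚ)) (Pi1 n (b + 2 * i) B) * (bs z n h (b + 2 * i) d (k + 1) -
              bs z n h (b + 2 * i) d k) - TS (-(k : ℚ)) (Y926.TW.eta n (b + 2 * i) B d))) =
            TS (-(k : ℚ)) (Pi1 n (b + 2 * i) B) * TS (-(k : ℚ)) (Rj i) *
              (PowerSeries.C (c l d) * bs z n h (b + 2 * i) d (k + 1)) -
            TS (-(k : ℚ)) (Pi1 n (b + 2 * i) B) * TS (-(k : ℚ)) (Rj i) *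
              (PowerSeries.C (c l d) * bs z n h (b + 2 * i) d k) -
            TS (-(k : ℚ)) (C (c l d) * Y926.TW.eta n (b + 2 * i) B d) * TS (-(k : ℚ)) (Rj i) := by
          intro d _
          rw [map_mul (TS (-(k : ℚ))) (C (c l d)), TS_C]
          ring
        rw [Finset.sum_congr rfl e2, Finset.sum_sub_distrib, Finset.sum_sub_distrib,
          ← Finset.mul_sum, ← Finset.mul_sum, ← Finset.sum_mul]
        ring
      show (PowerSeries.X : PowerSeries ℚ) ^ (2 * h) ∣ _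
      rw [e1]
      refine Dvd.dvd.mul_left (Finset.dvd_sum (fun d hd => ?_)) _
      obtain ⟨hd1, hd2⟩ := Finset.mem_Icc.1 hd
      exact Dvd.dvd.mul_left (t_rec z n h (b + 2 * i) B d k (hev i) hh hd1 hd2 hk) _)
    (fun x hx => by
      obtain ⟨hx1, e, he, u', hu1, hu2, hu3, hxe⟩ := hNd2 x hx
      unfold su at he
      obtain ⟨he1, i0, hi0⟩ := Finset.mem_filter.1 he
      obtain ⟨he2, he3⟩ := Finset.mem_Icc.1 he1
      refine ⟨fun k => ?_, fun i => Cd B (c i) e, fun h0 => hi0 (congrFun h0 i0), fun j hj => ?_⟩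
      · have := hx1 (-(k : ℤ))
        push_cast at this
        exact this
      · rw [zt_sh_sum j (fun i => Cd B (c i) e) (fun i => (Q' i).comp (yp n))]
        have h5 : ∑ i, C (Cd B (c i) e) * (Q' i).comp (yp n) = (fe B w Q e).comp (yp n) := by
          rw [hfe e, sum_comp]
          exact Finset.sum_congr rfl (fun i _ => by rw [mul_comp, C_comp])
        rw [h5]
        refine zt_shift j x bm _ ?_
        have h6 : x - j = ((u' - j * e : ℤ) : ℚ) / e - ν := by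
          have he0 : (e : ℚ) ≠ 0 := by exact_mod_cast (by omega : e ≠ 0)
          rw [hxe]
          push_cast
          field_simp
          ring
        rw [h6]
        have hj' : (j : ℤ) ≤ (m1 + V : ℕ) := by exact_mod_cast hj
        have he0 : (0 : ℤ) < e := by exact_mod_cast (by omega : 0 < e)
        refine zt_van hVan he2 he3 ?_ ?_ ?_
        · have h7 : u' - j * e = u' + (e : ℤ) * (-j) := by ring
          rw [h7]
          exact (IsCoprime.add_mul_left_left_iff).2 hu1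
        · nlinarith
        · have : (0 : ℤ) ≤ j * e := by positivity
          linarith)
    (by
      rw [hNd1, hc0]
      exact ztv_ineq hm1 hm1m hmL (by omega) hV (zt_NN_le B c) (hslope m1 a haind) h1 h2 h3 hD1)
  -- step 4
  have htele := tel_multi (n := n) (b := b) (V := V) (B := B) (c := c ⟨0, hm1⟩) (by omega) (by
    rw [hc]
    simp only
    rw [Finset.sum_comm]
    refine Finset.sum_eq_zero (fun l _ => ?_)
    rw [← Finset.mul_sum]
    have h4 := hzero l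
    have h5 : ∑ d ∈ Finset.Icc 1 B, (w l d : ℚ) = 0 := by exact_mod_cast h4
    rw [h5, mul_zero]) hκ (x := u ⟨0, hm1⟩) (by
    rw [hu ⟨0, hm1⟩]
    refine Finset.sum_congr rfl fun i _ => ?_
    congr 1
    have e1 := io_ne (hPs0 i)
    have e2 := io_ne (hRj0 i)
    rw [hη, ← hPsR i, map_mul, map_mul, map_sum, mul_div_mul_right _ _ e2, Finset.sum_div]
    refine Finset.sum_congr rfl fun d _ => ?_
    rw [map_mul, mul_div_assoc, hPs])
  have ha0 : a ⟨0, hm1⟩ = 0 := by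
    funext l
    refine Fintype.linearIndependent_iff.1 hind (a ⟨0, hm1⟩) ?_ l
    funext d
    rw [Finset.sum_apply]
    simp only [Pi.smul_apply, smul_eq_mul, Pi.zero_apply]
    exact htele (d.1 + 1) (Finset.mem_Icc.2 ⟨by omega, by omega⟩)
  exact haind.ne_zero ⟨0, hm1⟩ ha0

end

end Pool.Agent.K1H76.MW
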