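import Pool.Agent.K1H76.MW.Par
import Pool.Agent.K1H76.MW.Zt
import Pool.Agent.Y926.TW.J_SLP
import Pool.Agent.Y926.TW.J_REG
import Pool.Agent.Y926.TW.J_COE
import Pool.Agent.Y926.TW.J_SIE
import Pool.Agent.Y926.TW.J_INT
import Pool.Agent.Y926.TW.J_ARC
import Pool.Agent.Y926.TW.J_RHO
import Pool.Agent.Y926.TW.J_DIF
import Pool.Agent.Y926.LZ.Main

/-!
# The main theorem, for even `b`

The proof follows `Pool/Agent/Y926/TW/Core.lean` (starting files), with the orders of derivatives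
`b, b + 2, …, b + 2 (V - 1)`, `V = min (m, b / 2)`, at the same time.
-/

open Polynomial Pool.Agent.H337R2 Pool.Agent.W165.OZ Pool.Agent.Y926.LZ Pool.Agent.Y926.TW Filter
  Topology

namespace Pool.Agent.K1H76.MW

noncomputable section

/-- vanishing to a smaller order -/
lemma Van_mono {m b b' B ν L : ℕ} (h : b ≤ b') {w : Fin m → ℕ → ℤ} {Q : Fin m → ℚ[X]}
    (hV : Van b' B ν L w Q) : Van b B ν L w Q :=
  fun e he heB u hu hc => (pow_dvd_pow _ (Nat.succ_le_succ h)).trans (hV e he heB u hu hc)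

/-- **The main theorem**, for even `b`. -/
theorem mw_core {b K L S : ℕ} (hb : Even b) (hb2 : 2 ≤ b) (hK : 1 ≤ K)
    (hL : 2 * K ≤ 2 ^ L) (hS : 1 ≤ S) : ∃ q0 : ℕ, ∀ q ≥ q0, ∀ I : Finset ℕ,
    (∀ j, Odd j → b < j → j ≤ 2 * hv b K L S + bm b → j ∉ I →
      ∃ p : ℤ, |(q : ℝ) * zr j - p| < (q : ℝ) ^ (-(1 / (S : ℝ)))) → K ≤ I.card := by
  classical
  obtain ⟨hYb, hYh, hXYb, hhb, hh1000⟩ := expsv (b := b) (K := K) (L := L) (S := S) hK hS
  have hc1 := hv1_c1 b K L S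
  have hc2 := hv1_c2 (b := b) (K := K) (L := L) (S := S) hb2
  obtain ⟨h1, hh1⟩ : ∃ h1, h1 = hv1 b K L S := ⟨_, rfl⟩
  obtain ⟨h, hh⟩ : ∃ h, h = hv b K L S := ⟨_, rfl⟩
  obtain ⟨bb, hbb⟩ : ∃ bb, bb = bm b := ⟨_, rfl⟩
  have hbbe : bb + 2 = 2 * b := by rw [hbb]; unfold bm; omega
  have hbble : b ≤ bb := by omega
  rw [← hbb] at hYb hYh hXYb hhb hc1 hc2 ⊢
  obtain ⟨Y, hY⟩ : ∃ Y, Y = YS bb K S := ⟨_, rfl⟩
  obtain ⟨r, hr⟩ : ∃ r, r = rS S := ⟨_, rfl⟩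
  obtain ⟨B, hB⟩ : ∃ B, B = 2 * K := ⟨_, rfl⟩
  have hh16 : h = 16 * h1 := by rw [hh, hh1]; rfl
  rw [← hh] at hhb hh1000
  rw [← hh1] at hYh hc1 hc2
  rw [← hY] at hYb hYh hXYb hc1 hc2
  rw [← hh]
  rw [← hB] at hL
  have hB1 : 1 ≤ B := by omega
  have hr2 : 2 ≤ r := by
    rw [hr]
    unfold rS
    calc 2 = 2 ^ 1 := rfl
      _ ≤ _ := Nat.pow_le_pow_right (by norm_num) (by omega)
  have hYr : Y = 4 * K * ((bb + 1) * (r + 1)) := by rw [hY, hr]; rfl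
  obtain ⟨g, hg⟩ : ∃ g, g + (12 * h + 4 * bb + 2) = 48 * S * h := by
    refine ⟨48 * S * h - (12 * h + 4 * bb + 2), Nat.sub_add_cancel ?_⟩
    have : 48 * 1 * h ≤ 48 * S * h := Nat.mul_le_mul_right _ (Nat.mul_le_mul_left _ hS)
    omega
  have hgS : 20 * h * S ≤ g := by
    have e1 : h * 1 ≤ h * S := Nat.mul_le_mul_left _ hS
    have e2 : 48 * S * h = 20 * h * S + 28 * (h * S) := by ring
    omega
  have hg1 : 1 ≤ g := by
    have : 20 * h * 1 ≤ 20 * h * S := Nat.mul_le_mul_left _ hS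
    omega
  -- the weights
  have hex : ∀ J : Finset ℕ, ∃ W : ℕ, J.card < B → ∃ (m : ℕ) (w : Fin m → ℕ → ℤ), 1 ≤ m ∧ m ≤ B ∧
      LinearIndependent ℚ (fun (l : Fin m) (d : Fin B) => (w l (d.1 + 1) : ℚ)) ∧
      (∀ l, ∀ j ∈ J, ∑ d ∈ Finset.Icc 1 B, w l d * (d : ℤ) ^ j = 0) ∧
      NN B (fun l d => (w l d : ℚ)) * (B - J.card) ≤ m * B ^ 2 ∧
      (∀ (m1 : ℕ) (a : Fin m1 → Fin m → ℚ), LinearIndependent ℚ a →
        m1 * NN B (fun l d => (w l d : ℚ)) ≤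
          m * NN B (fun (i : Fin m1) d => ∑ l, a i l * (w l d : ℚ))) ∧
      ∑ d ∈ Finset.Icc 1 B, ∑ l, |w l d| ≤ (W : ℤ) := by
    intro J
    by_cases hJ : J.card < B
    · obtain ⟨m, w, a1, a2, a3, a4, a5, a6⟩ := t_slp B J hJ
      refine ⟨(∑ d ∈ Finset.Icc 1 B, ∑ l, |w l d|).toNat, fun _ => ⟨m, w, a1, a2, a3, a4, a5, a6, ?_⟩⟩
      exact Int.self_le_toNat _
    · exact ⟨0, fun h => absurd h hJ⟩
  choose Ws hWs using hex
  obtain ⟨W, hW⟩ : ∃ W, W = ∑ J ∈ (Finset.range (2 * h + bb + 1)).powerset, Ws J + 1 := ⟨_, rfl⟩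
  have hW1 : 1 ≤ W := by omega
  obtain ⟨Z, hZ⟩ : ∃ Z : ℝ, Z = 2 * h * (2 ^ (2 * h + bb) * (W * (B : ℝ) ^ (2 * h + bb))) := ⟨_, rfl⟩
  have hZ0 : 0 ≤ Z := by rw [hZ]; positivity
  obtain ⟨C4, hC4⟩ : ∃ C4 : ℝ, C4 = 4 ^ (h + 1) * (B : ℝ) ^ 2 * (r : ℝ) ^ 3 := ⟨_, rfl⟩
  have hC40 : 0 ≤ C4 := by rw [hC4]; positivity
  obtain ⟨c0, hc0⟩ : ∃ c0, c0 = 20 + 4 * B + (B + B * ((B + B) * (B * ((bb + 1) * B ^ 2))) +
    h * (B * (B + B)) + (bb + 1) * (B ^ 2 * (B + B))) := ⟨_, rfl⟩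
  -- the largeness conditions
  have hev := ((eventually_ge_atTop c0).and (Dl_le.and
    ((eventually_small (q := 1 / 2) (by norm_num) (by norm_num)
      ((B : ℝ) * (Y + h1 + 1) * W) 1).and
    ((eventually_small (q := 1 / 2) (by norm_num) (by norm_num)
      (4 * (2 * W * C4)) 3).and
    (eventually_small (q := 1 / 2) (by norm_num) (by norm_num)
      (4 * Z * (4 ^ h * 8)) (2 * h + 2))))))
  obtain ⟨N0, hN0⟩ := eventually_atTop.1 hev
  refine ⟨(2 ^ g) ^ (2 * (N0 + 1)) + 2, fun q hq I hI => ?_⟩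
  by_contra hlt
  rw [not_le] at hlt
  obtain ⟨ν, hνN, hqn, hqn1⟩ := choose_n hg1 hq
  obtain ⟨n, hn⟩ : ∃ n, n = 2 * ν + 1 := ⟨_, rfl⟩
  obtain ⟨hnc, hnD, hn3, hn4, hn5⟩ := hN0 n (by omega)
  have hν1 : 1 ≤ ν := by omega
  have hn1 : 1 ≤ n := by omega
  have hn20 : 20 ≤ n := by omega
  have hnB : 4 * B ≤ n := by omega
  have hnc2 : B + B * ((B + B) * (B * ((bb + 1) * B ^ 2))) + h * (B * (B + B)) +
    (bb + 1) * (B ^ 2 * (B + B)) ≤ n := by omega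
  have hq0 : 0 < q := by omega
  have hq0' : (0 : ℝ) < q := by exact_mod_cast hq0
  -- the approximations
  obtain ⟨s, hs⟩ : ∃ s : ℝ, s = (q : ℝ) ^ (-(1 / (S : ℝ))) := ⟨_, rfl⟩
  have hs0 : 0 < s := by rw [hs]; exact Real.rpow_pos_of_pos hq0' _
  rw [← hs] at hI
  have hsT : s * 2 ^ (20 * h * (2 * ν - 1)) ≤ 1 := by
    have e1 : (2 ^ (20 * h * (2 * ν - 1))) ^ S ≤ q := by
      refine le_trans ?_ hqn1.le
      rw [← pow_mul]
      apply Nat.pow_le_pow_right (by norm_num)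
      calc 20 * h * (2 * ν - 1) * S = 20 * h * S * (2 * ν - 1) := by ring
        _ ≤ g * (2 * ν - 1) := Nat.mul_le_mul_right _ hgS
    have e2 := root_le hq0 hS e1
    rw [← hs] at e2
    push_cast at e2
    exact e2
  obtain ⟨I', hI'⟩ : ∃ I', I' = I.filter (fun j => j ≤ 2 * h + bb) := ⟨_, rfl⟩
  have hI'c : I'.card < K := lt_of_le_of_lt (by rw [hI']; exact Finset.card_filter_le _ _) hlt
  obtain ⟨J, hJ⟩ : ∃ J, J = insert 0 I' := ⟨_, rfl⟩
  have hJc : J.card ≤ K := by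
    rw [hJ]
    exact (Finset.card_insert_le _ _).trans hI'c
  obtain ⟨m, w, hm1, hmB, hwi, hwJ, hwN, hwS, hwW⟩ := hWs J (by omega)
  have hWsJ : Ws J ≤ W := by
    rw [hW]
    refine le_trans ?_ (Nat.le_succ _)
    apply Finset.single_le_sum (f := Ws) (fun _ _ => Nat.zero_le _)
    rw [Finset.mem_powerset, hJ, hI']
    intro j hj
    rw [Finset.mem_insert, Finset.mem_filter] at hj
    rw [Finset.mem_range]
    omega
  have hwW' : ∑ d ∈ Finset.Icc 1 B, ∑ l, |w l d| ≤ (W : ℤ) := hwW.trans (by exact_mod_cast hWsJ)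
  have hsum0 : ∀ l, ∑ d ∈ Finset.Icc 1 B, w l d = 0 := by
    intro l
    have := hwJ l 0 (by rw [hJ]; exact Finset.mem_insert_self _ _)
    simpa using this
  have hslp : Slp B m w := ⟨hwi, hsum0, hwS⟩
  have hwl : ∀ l, ∑ d ∈ Finset.Icc 1 B, |w l d| ≤ (W : ℤ) := by
    intro l
    refine le_trans ?_ hwW'
    apply Finset.sum_le_sum
    intro d _
    exact Finset.single_le_sum (f := fun l => |w l d|) (fun _ _ => abs_nonneg _) (Finset.mem_univ l)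
  -- the rational approximations
  have hp : ∀ j, ∃ p : ℤ, (Odd j → b < j → j ≤ 2 * h + bb → j ∉ I' → |(q : ℝ) * zr j - p| < s) := by
    intro j
    by_cases hc : Odd j ∧ b < j ∧ j ≤ 2 * h + bb ∧ j ∉ I'
    · have hjI : j ∉ I := by
        intro hj
        apply hc.2.2.2
        rw [hI', Finset.mem_filter]
        exact ⟨hj, hc.2.2.1⟩
      obtain ⟨p, hp⟩ := hI j hc.1 hc.2.1 hc.2.2.1 hjI
      exact ⟨p, fun _ _ _ _ => hp⟩
    · exact ⟨0, fun h1 h2 h3 h4 => absurd ⟨h1, h2, h3, h4⟩ hc⟩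
  choose p hp using hp
  obtain ⟨z, hz⟩ : ∃ z : ℕ → ℚ, ∀ j, z j = (p j : ℚ) / q := ⟨_, fun _ => rfl⟩
  have hq0q : (q : ℚ) ≠ 0 := by exact_mod_cast hq0.ne'
  have hWJ : ∀ j ∈ I', ∀ l, WW B (w l) j = 0 := by
    intro j hj l
    unfold WW
    exact hwJ l j (by rw [hJ]; exact Finset.mem_insert_of_mem hj)
  have hyz : ∀ j, Odd j → b < j → j ≤ 2 * h + bb →
      (∀ l, WW B (w l) j = 0) ∨ |zr j - (z j : ℝ)| ≤ s / q := by
    intro j hj1 hj2 hj3
    by_cases hjI : j ∈ I'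
    · exact Or.inl (hWJ j hjI)
    · right
      have e1 := hp j hj1 hj2 hj3 hjI
      rw [hz, le_div_iff₀ hq0']
      have e2 : |zr j - (((p j : ℚ) / q : ℚ) : ℝ)| * q = |(q : ℝ) * zr j - p j| := by
        rw [← abs_of_pos hq0', ← abs_mul, abs_of_pos hq0']
        congr 1
        push_cast
        field_simp
      rw [e2]
      exact e1.le
  have hyi : ∀ j, Odd j → b < j → j ≤ 2 * h + bb →
      (∀ l, WW B (w l) j = 0) ∨ ∃ a : ℤ, (q : ℚ) * z j = a := by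
    intro j _ _ _
    right
    refine ⟨p j, ?_⟩
    rw [hz]
    field_simp
  -- the numbers
  obtain ⟨N, hN⟩ : ∃ N, N = NN B (fun l d => (w l d : ℚ)) := ⟨_, rfl⟩
  have hN4 : N ≤ 4 * K * m := NN_le hB hK hJc (by rw [hN]; exact hwN)
  obtain ⟨Eq, hEq⟩ : ∃ Eq, Eq = (bb + 1) * (N * (r * n + ν)) := ⟨_, rfl⟩
  have hEqY : Eq ≤ m * (Y * n) := by
    have e1 : r * n + ν ≤ (r + 1) * n := by
      have : (r + 1) * n = r * n + n := by ring
      omega
    calc Eq = (bb + 1) * (N * (r * n + ν)) := hEq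
      _ ≤ (bb + 1) * ((4 * K * m) * ((r + 1) * n)) :=
          Nat.mul_le_mul_left _ (Nat.mul_le_mul hN4 e1)
      _ = m * (Y * n) := by rw [hYr]; ring
  -- the number of orders
  obtain ⟨V, hV⟩ : ∃ V, V = min m (b / 2) := ⟨_, rfl⟩
  have hVm : V ≤ m := by rw [hV]; exact min_le_left _ _
  have hVb : V ≤ b / 2 := by rw [hV]; exact min_le_right _ _
  have hV1 : 1 ≤ V := by rw [hV]; exact le_min hm1 (by omega)
  have hVor : V = m ∨ V = b / 2 := by rw [hV]; exact min_choice _ _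
  have hVB : V ≤ B := hVm.trans hmB
  have hbV : b + 2 * V ≤ bb + 2 := by omega
  obtain ⟨μ, hμ⟩ : ∃ μ, μ = V * (h1 * n) := ⟨_, rfl⟩
  obtain ⟨D, hD⟩ : ∃ D, D = (Eq + μ) / m + 1 := ⟨_, rfl⟩
  have hh11 : 1 ≤ h1 := by omega
  have hμ1 : 1 ≤ μ := by rw [hμ]; exact Nat.mul_pos hV1 (Nat.mul_pos hh11 hn1)
  have hDlo : Eq + μ ≤ m * D := by
    rw [hD]
    exact (Nat.lt_mul_div_succ _ (by omega)).le
  have hDhi : m * D ≤ Eq + μ + m := by
    rw [hD, mul_add, mul_one]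
    exact Nat.add_le_add_right (Nat.mul_div_le _ _) _
  have hDY : D ≤ Y * n + (V * (h1 * n)) / m + 1 := by
    rw [hD]
    apply Nat.add_le_add_right
    calc (Eq + μ) / m ≤ (m * (Y * n) + μ) / m := Nat.div_le_div_right (by omega)
      _ = Y * n + (V * (h1 * n)) / m := by rw [Nat.mul_add_div (by omega), hμ]
  have hDn : D ≤ (Y + h1 + 1) * n := by
    have e1 : (V * (h1 * n)) / m ≤ h1 * n := by
      calc (V * (h1 * n)) / m ≤ (m * (h1 * n)) / m := Nat.div_le_div_right (Nat.mul_le_mul_right _ hVm)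
        _ = h1 * n := Nat.mul_div_cancel_left _ (by omega)
    have e2 : (Y + h1 + 1) * n = Y * n + h1 * n + n := by ring
    omega
  obtain ⟨CC, hCC⟩ : ∃ CC, CC = m + V * ((m + V) * (V * ((bb + 1) * B ^ 2))) + h * (V * (m + V)) +
    (bb + 1) * (B ^ 2 * (m + V)) := ⟨_, rfl⟩
  have hCCn : CC ≤ n := by
    refine le_trans ?_ hnc2
    rw [hCC]
    gcongr
  obtain ⟨G, hG⟩ : ∃ G, G = h1 * n + CC := ⟨_, rfl⟩
  have hGV : μ + CC ≤ V * G := by
    rw [hG, hμ, mul_add]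
    exact Nat.add_le_add_left (Nat.le_mul_of_pos_left _ hV1) _
  have hGn : G ≤ (h1 + 1) * n := by
    have e3 : (h1 + 1) * n = h1 * n + n := by ring
    rw [hG]
    omega
  have hE : 2 * (G + D + 2 * n) ≤ h * n := by
    have e1 : (Y + h1 + 1) * n ≤ (2 * h1 + 1) * n := Nat.mul_le_mul_right _ (by omega)
    have e2 : (2 * h1 + 1) * n = 2 * (h1 * n) + n := by ring
    have e3 : (h1 + 1) * n = h1 * n + n := by ring
    have e4 : h * n = 16 * (h1 * n) := by rw [hh16]; ring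
    have e5 : n ≤ h1 * n := Nat.le_mul_of_pos_left _ hh11
    omega
  have hhn3 : 3 ≤ h * n := by
    have : h * 1 ≤ h * n := Nat.mul_le_mul_left _ hn1
    omega
  have hhn2 : 2 * h * n = h * n + h * n := by ring
  obtain ⟨H, hH⟩ : ∃ H, H = 2 ^ (h * n) := ⟨_, rfl⟩
  -- Siegel's lemma
  have hDlN : Dl n 1 ≤ 16 ^ n := by exact_mod_cast hnD
  have hmDW : m * D * W ≤ 2 ^ n := by
    have e1 := half_pow hn3
    rw [pow_one] at e1
    have e2 : ((m * D * W : ℕ) : ℝ) ≤ (B : ℝ) * (Y + h1 + 1) * W * n := by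
      have e3 : m * D * W ≤ B * ((Y + h1 + 1) * n) * W := by gcongr
      have e4 : ((m * D * W : ℕ) : ℝ) ≤ ((B * ((Y + h1 + 1) * n) * W : ℕ) : ℝ) := by exact_mod_cast e3
      refine e4.trans (le_of_eq ?_)
      push_cast
      ring
    have e5 : ((m * D * W : ℕ) : ℝ) ≤ ((2 ^ n : ℕ) : ℝ) := by
      push_cast
      push_cast at e2
      linarith
    exact_mod_cast e5
  have hsn : (m * D * (W * B ^ (4 * D) * Dl n 1 ^ bb * (54 * rS S ^ 2) ^ (D + n))) ^ Eq ≤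
      (2 ^ (h * n)) ^ μ := by
    apply sie_num hmDW hL hDlN
    have e1 := sie_expv (X := XS L S) (Y := Y) (K := K) (h1 := h1) (n := n) (m := m) (Eq := Eq) (D := D)
      (b := bb) (S := S) (V := V) (v := b / 2) hn1 (by omega) (by unfold XS; omega) (by omega) hEqY
      hDY hc1 hc2 hVor hXYb
    rw [hh16, hμ]
    exact e1
  obtain ⟨c, ⟨l0, hl0⟩, hcH, hVan⟩ := t_sie t_noe t_coe bb B m ν r D W μ H w hB1 hμ1 hW1 hr2 hν1 hwl
    (by rw [← hn, ← hN, ← hEq]; exact hDlo)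
    (by rw [← hn, ← hN, ← hEq, hr, hH]; exact hsn)
  rw [← hn] at hVan hl0
  -- powers of two
  obtain ⟨P1, hP1⟩ : ∃ P1 : ℝ, P1 = 2 ^ (g * n) := ⟨_, rfl⟩
  obtain ⟨P2, hP2⟩ : ∃ P2 : ℝ, P2 = 2 ^ ((8 * h + 4 * bb) * n) := ⟨_, rfl⟩
  obtain ⟨P3, hP3⟩ : ∃ P3 : ℝ, P3 = 2 ^ n := ⟨_, rfl⟩
  obtain ⟨P5, hP5⟩ : ∃ P5 : ℝ, P5 = 2 ^ (h * n) := ⟨_, rfl⟩
  have hP1p : 0 < P1 := by rw [hP1]; positivity
  have hP2p : 0 < P2 := by rw [hP2]; positivity
  have hP3p : 0 < P3 := by rw [hP3]; positivity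
  have hP5p : 0 < P5 := by rw [hP5]; positivity
  have hqP : (q : ℝ) ≤ P1 := by
    rw [hP1, hn]
    exact_mod_cast hqn
  have hD0 : (0 : ℝ) < (Dl n 1 : ℝ) := by exact_mod_cast PRaux.Dl_pos n 1
  have hDP : (Dl n 1 : ℝ) ^ (2 * h + bb) ≤ P2 := by
    calc (Dl n 1 : ℝ) ^ (2 * h + bb) ≤ (16 ^ n) ^ (2 * h + bb) := pow_le_pow_left₀ hD0.le hnD _
      _ = P2 := by
        rw [hP2, show (16 : ℝ) = 2 ^ 4 by norm_num, ← pow_mul, ← pow_mul]
        congr 1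
        ring
  have hDP3 : (D : ℝ) ≤ P3 := by
    have e1 : D ≤ m * D * W := by
      calc D = 1 * D * 1 := by ring
        _ ≤ _ := by gcongr
    rw [hP3]
    exact_mod_cast e1.trans hmDW
  have hHP : (H : ℝ) = P5 := by rw [hH, hP5]; push_cast; rfl
  have hrR : (r : ℝ) = (rS S : ℝ) := by rw [hr]
  -- first estimate
  have hT1 : ∀ E, E ≤ G + D + 2 * n → (q : ℝ) * (Dl n 1 : ℝ) ^ (2 * h + bb) *
      (W * (D * H * (2 * (M8 n h B r E : ℝ)))) ≤ 1 / 4 := by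
    intro E hEE
    have e1 := M8_bd (n := n) (h := h) (B := B) (S := S) (E := E) (by omega) hhn3
    rw [← hrR, ← hC4, ← hr] at e1
    have hM0 : (0 : ℝ) ≤ (M8 n h B r E : ℝ) := by
      have : 0 ≤ M8 n h B r E := by unfold M8; positivity
      exact_mod_cast this
    have e2 : (2 : ℝ) ^ (48 * S * h * n) = P1 * P2 * (P3 * P3) * P5 * (P5 * P5 * P5) := by
      rw [hP1, hP2, hP3, hP5, ← pow_add, ← pow_add, ← pow_add, ← pow_add, ← pow_add, ← pow_add,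
        ← pow_add, ← hg]
      congr 1
      ring
    have e3 : (2 : ℝ) ^ (3 * h * n) = P5 * P5 * P5 := by
      rw [hP5, ← pow_add, ← pow_add]
      congr 1
      ring
    rw [e2, e3] at e1
    have e4 : (M8 n h B r E : ℝ) * (P1 * P2 * (P3 * P3) * P5) ≤ C4 * (n : ℝ) ^ 3 := by
      have e5 : ((M8 n h B r E : ℝ) * (P1 * P2 * (P3 * P3) * P5)) * (P5 * P5 * P5) ≤
          (C4 * (n : ℝ) ^ 3) * (P5 * P5 * P5) := by
        calc _ = (M8 n h B r E : ℝ) * (P1 * P2 * (P3 * P3) * P5 * (P5 * P5 * P5)) := by ring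
          _ ≤ _ := e1
      exact le_of_mul_le_mul_right e5 (by positivity)
    have e6 := half_pow hn4
    rw [← hP3] at e6
    have e7 : ((q : ℝ) * (Dl n 1 : ℝ) ^ (2 * h + bb) * (W * (D * H * (2 * (M8 n h B r E : ℝ))))) * P3 ≤
        1 / 4 * P3 := by
      calc ((q : ℝ) * (Dl n 1 : ℝ) ^ (2 * h + bb) * (W * (D * H * (2 * (M8 n h B r E : ℝ))))) * P3
          ≤ (P1 * P2 * (W * (P3 * P5 * (2 * (M8 n h B r E : ℝ))))) * P3 := by rw [hHP]; gcongr
        _ = 2 * W * ((M8 n h B r E : ℝ) * (P1 * P2 * (P3 * P3) * P5)) := by ring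
        _ ≤ 2 * W * (C4 * (n : ℝ) ^ 3) := by gcongr
        _ ≤ 1 / 4 * P3 := by linarith
    exact le_of_mul_le_mul_right e7 hP3p
  -- second estimate
  obtain ⟨R, hR⟩ : ∃ R : ℕ → ℚ, ∀ i, R i = 4 ^ h * (8 * (n : ℚ) ^ 2) * (D * H * 216 ^ (i + D + 2 * n)) *
      ((n : ℚ) * 4 ^ n) ^ (2 * h) := ⟨_, fun _ => rfl⟩
  have hT2 : ∀ i ≤ G, (q : ℝ) * (Dl n 1 : ℝ) ^ (2 * h + bb) *
      (2 * h * (2 ^ (2 * h + bb) * (R i : ℝ) * (W * (B : ℝ) ^ (2 * h + bb)) * (s / q))) ≤ 1 / 4 := by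
    intro i hi
    have e1 : (R i : ℝ) ≤ (4 ^ h * 8) * (n : ℝ) ^ (2 * h + 2) * (P3 * 2 ^ (9 * h * n)) := by
      rw [hR]
      push_cast
      have e2 : (216 : ℝ) ^ (i + D + 2 * n) ≤ 2 ^ (4 * h * n) := by
        calc (216 : ℝ) ^ (i + D + 2 * n) ≤ (2 ^ 8) ^ (i + D + 2 * n) :=
              pow_le_pow_left₀ (by norm_num) (by norm_num) _
          _ = 2 ^ (8 * (i + D + 2 * n)) := by rw [← pow_mul]
          _ ≤ _ := pow_le_pow_right₀ (by norm_num) (by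
              have : 4 * h * n = 4 * (h * n) := by ring
              omega)
      rw [hHP, hP5]
      calc 4 ^ h * (8 * (n : ℝ) ^ 2) * ((D : ℝ) * 2 ^ (h * n) * 216 ^ (i + D + 2 * n)) *
            ((n : ℝ) * 4 ^ n) ^ (2 * h)
          ≤ 4 ^ h * (8 * (n : ℝ) ^ 2) * (P3 * 2 ^ (h * n) * 2 ^ (4 * h * n)) *
            ((n : ℝ) * 4 ^ n) ^ (2 * h) := by gcongr
        _ = (4 ^ h * 8) * ((n : ℝ) ^ (2 * h) * (n : ℝ) ^ 2) *
            (P3 * (2 ^ (h * n) * 2 ^ (4 * h * n) * (4 ^ n) ^ (2 * h))) := by rw [mul_pow (n : ℝ)]; ring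
        _ = _ := by
            rw [← pow_add (n : ℝ), show (4 : ℝ) = 2 ^ 2 by norm_num, ← pow_mul 2 2 n,
              ← pow_mul 2 (2 * n) (2 * h), ← pow_add 2 (h * n), ← pow_add 2 (h * n + 4 * h * n)]
            congr 3
            ring
    have e3 := half_pow hn5
    rw [← hP3] at e3
    have e4 : P2 * P3 * P3 * 2 ^ (9 * h * n) * s ≤ 1 := by
      have e5 : P2 * P3 * P3 * 2 ^ (9 * h * n) ≤ 2 ^ (20 * h * (2 * ν - 1)) := by
        rw [hP2, hP3, ← pow_add, ← pow_add, ← pow_add]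
        apply pow_le_pow_right₀ (by norm_num)
        obtain ⟨k, hk⟩ : ∃ k, k = 2 * ν - 1 := ⟨_, rfl⟩
        rw [← hk]
        have e6 : n = k + 2 := by omega
        rw [e6]
        have e7 : (8 * h + 4 * bb) * (k + 2) + (k + 2) + (k + 2) + 9 * h * (k + 2) =
          (17 * h + 4 * bb + 2) * (k + 2) := by ring
        rw [e7]
        have e8 : (17 * h + 4 * bb + 2) * (k + 2) ≤ (18 * h) * (k + 2) := Nat.mul_le_mul_right _ (by omega)
        have e9 : (18 * h) * (k + 2) = 18 * (h * k) + 36 * h := by ring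
        have e10 : 20 * h * k = 20 * (h * k) := by ring
        have e11 : h * 18 ≤ h * k := Nat.mul_le_mul_left _ (by omega)
        omega
      calc P2 * P3 * P3 * 2 ^ (9 * h * n) * s ≤ 2 ^ (20 * h * (2 * ν - 1)) * s := by gcongr
        _ = s * 2 ^ (20 * h * (2 * ν - 1)) := by ring
        _ ≤ 1 := hsT
    have e5 : (q : ℝ) * (Dl n 1 : ℝ) ^ (2 * h + bb) *
        (2 * h * (2 ^ (2 * h + bb) * (R i : ℝ) * (W * (B : ℝ) ^ (2 * h + bb)) * (s / q))) =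
        (Dl n 1 : ℝ) ^ (2 * h + bb) * (Z * (R i : ℝ) * s) := by
      rw [hZ]
      field_simp
    have hR0 : (0 : ℝ) ≤ (R i : ℝ) := by
      have : 0 ≤ R i := by rw [hR]; positivity
      exact_mod_cast this
    rw [e5]
    calc (Dl n 1 : ℝ) ^ (2 * h + bb) * (Z * (R i : ℝ) * s)
        ≤ P2 * (Z * ((4 ^ h * 8) * (n : ℝ) ^ (2 * h + 2) * (P3 * 2 ^ (9 * h * n))) * s) := by gcongr
      _ = 1 / 4 * (4 * Z * (4 ^ h * 8) * (n : ℝ) ^ (2 * h + 2)) *
          (P2 * P3 * 2 ^ (9 * h * n) * s) := by ring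
      _ ≤ 1 / 4 * P3 * (P2 * P3 * 2 ^ (9 * h * n) * s) := by gcongr
      _ = 1 / 4 * (P2 * P3 * P3 * 2 ^ (9 * h * n) * s) := by ring
      _ ≤ 1 / 4 * 1 := by gcongr
      _ = 1 / 4 := by ring
  -- the forms vanish
  have hndg : n * (2 * h) = 2 * h * n := by ring
  have hDl1 : (1 : ℝ) ≤ (Dl n 1 : ℝ) := by
    have := PRaux.Dl_pos n 1
    exact_mod_cast this
  have hzero : ∀ a < V, ∀ i ≤ G,
      LQ z n h (b + 2 * a) B (fun d => Gb n i * Pv w (fun l => Qv n D (c l)) d) = 0 := by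
    intro a ha i hi
    obtain ⟨β, hβ⟩ : ∃ β, β = b + 2 * a := ⟨_, rfl⟩
    rw [← hβ]
    have hβe : Even β := by rw [hβ]; exact hb.add (even_two_mul a)
    have hβb : β ≤ bb := by omega
    have hbβ : b ≤ β := by omega
    have hVanβ : Van β B ν (r * (2 * ν + 1) + ν) w (fun l => Qv (2 * ν + 1) D (c l)) := by
      rw [← hn]
      exact Van_mono hβb hVan
    obtain ⟨Mz, hMz⟩ := t_int t_reg z β B m h ν (r * n + ν) D i q w c hβe (by
      have : 1 * n ≤ r * n := Nat.mul_le_mul_right _ (by omega)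
      omega) (by rw [← hn, hndg]; omega) hsum0 (by rw [hn]; exact hVanβ)
      (fun j h1 h2 h3 => hyi j h1 (by omega) (by omega))
    rw [← hn] at hMz
    have hle := t_arc t_reg β B m h ν r D i W H w c hβe (by omega) hr2 hν1 (by rw [← hn]; omega) hsum0
      hcH hwW' hVanβ
    rw [← hn] at hle
    have hdf := t_dif z n h β B m w (Gb n i) (fun l => Qv n D (c l)) (R i) W (s / q) hn1 hB1 hβe
      (by omega) (by positivity) (by rw [hR]; positivity) (fun l => by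
        have e1 := Polynomial.natDegree_mul_le (p := Gb n i) (q := Qv n D (c l))
        have e2 := Qv_natDegree n D (c l)
        have e3 := (Gb_spec n i).2
        rw [hndg]
        omega) (fun l j hj => by rw [hR]; exact t_rho n h D i j H (c l) hn1 hj (hcH l)) hwW'
      (fun j h1 h2 h3 => hyz j h1 (by omega) (by omega))
    obtain ⟨x, hx⟩ : ∃ x, x = LQ z n h β B (fun d => Gb n i * Pv w (fun l => Qv n D (c l)) d) :=
      ⟨_, rfl⟩
    rw [← hx] at hMz hdf ⊢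
    obtain ⟨y, hy⟩ : ∃ y, y = ∑ d ∈ Finset.Icc 1 B,
        Sd n h β d (KP n h (Gb n i * Pv w (fun l => Qv n D (c l)) d)) := ⟨_, rfl⟩
    rw [← hy] at hle hdf
    have hR0 : (0 : ℝ) ≤ (R i : ℝ) := by
      have : 0 ≤ R i := by rw [hR]; positivity
      exact_mod_cast this
    have hB1' : (1 : ℝ) ≤ B := by exact_mod_cast hB1
    have hdf2 : 2 * h * (2 ^ (2 * h + β) * (R i : ℝ) * (W * (B : ℝ) ^ (2 * h + β)) * (s / q)) ≤
        2 * h * (2 ^ (2 * h + bb) * (R i : ℝ) * (W * (B : ℝ) ^ (2 * h + bb)) * (s / q)) := by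
      have e1 : (2 : ℝ) ^ (2 * h + β) ≤ 2 ^ (2 * h + bb) :=
        pow_le_pow_right₀ (by norm_num) (by omega)
      have e2 : (B : ℝ) ^ (2 * h + β) ≤ (B : ℝ) ^ (2 * h + bb) :=
        pow_le_pow_right₀ hB1' (by omega)
      gcongr
    have a1 : |(x : ℝ)| ≤ W * (D * H * (2 * (M8 n h B r (i + D + 2 * n) : ℝ))) +
        2 * h * (2 ^ (2 * h + bb) * (R i : ℝ) * (W * (B : ℝ) ^ (2 * h + bb)) * (s / q)) := by
      have a2 := abs_sub_abs_le_abs_sub (x : ℝ) y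
      rw [abs_sub_comm] at a2
      linarith
    have a3 : |(Mz : ℝ)| < 1 := by
      have a4 : (Mz : ℝ) = (q : ℝ) * (Dl n 1 : ℝ) ^ (2 * h + β) * (x : ℝ) := by
        have := congrArg (fun t : ℚ => (t : ℝ)) hMz
        push_cast at this
        exact this.symm
      have a5 : (Dl n 1 : ℝ) ^ (2 * h + β) ≤ (Dl n 1 : ℝ) ^ (2 * h + bb) :=
        pow_le_pow_right₀ hDl1 (by omega)
      rw [a4, abs_mul, abs_of_pos (by positivity : (0 : ℝ) < (q : ℝ) * (Dl n 1 : ℝ) ^ (2 * h + β))]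
      calc (q : ℝ) * (Dl n 1 : ℝ) ^ (2 * h + β) * |(x : ℝ)|
          ≤ (q : ℝ) * (Dl n 1 : ℝ) ^ (2 * h + bb) *
            (W * (D * H * (2 * (M8 n h B r (i + D + 2 * n) : ℝ))) +
            2 * h * (2 ^ (2 * h + bb) * (R i : ℝ) * (W * (B : ℝ) ^ (2 * h + bb)) * (s / q))) := by
            gcongr
        _ ≤ 1 / 4 + 1 / 4 := by
            rw [mul_add]
            exact add_le_add (hT1 _ (by omega)) (hT2 i hi)
        _ < 1 := by norm_num
    have a5 : Mz = 0 := by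
      have : |Mz| < 1 := by exact_mod_cast a3
      exact Int.abs_lt_one_iff.1 this
    rw [a5, Int.cast_zero] at hMz
    rcases mul_eq_zero.1 hMz with a6 | a6
    · exfalso
      rcases mul_eq_zero.1 a6 with a7 | a7
      · exact hq0q a7
      · have : (0 : ℚ) < (Dl n 1 : ℚ) := by exact_mod_cast PRaux.Dl_pos n 1
        exact (pow_pos this _).ne' a7
    · exact a6
  -- the zero estimate
  have hmV : m + V ≤ 2 * ν := by omega
  obtain ⟨a, ha, i, hi, hne⟩ := ztv z (b := b) (bm := bb) (B := B) (m := m) (h := h) (ν := ν)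
    (L := r * n + ν) (D := D) (μ := μ) (G := G) (V := V) (w := w) (Q := fun l => Qv n D (c l)) hb hV1
    hbV (by omega) (by
      have : 1 * n ≤ r * n := Nat.mul_le_mul_right _ (by omega)
      omega) hmV hslp ⟨l0, hl0⟩ (fun l => by
        have e1 := Qv_natDegree n D (c l)
        have e2 : 1 ≤ D := by rw [hD]; exact Nat.le_add_left _ _
        change (Qv n D (c l)).natDegree + 1 ≤ D
        omega) (by rw [← hn] at *; exact hVan) (by rw [← hN, ← hEq]; exact hDhi)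
    (by rw [← hCC]; exact hGV) (by rw [← hn, hndg]; omega)
  rw [← hn] at hne
  exact hne (hzero a ha i hi)

end

end Pool.Agent.K1H76.MW
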