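import Pool.Agent.Y926.TW.Core

/-!
# The parameters: orders of derivatives `b, b + 2, …, 2 b - 2`
-/

open Polynomial Pool.Agent.H337R2 Pool.Agent.W165.OZ Pool.Agent.Y926.LZ Pool.Agent.Y926.TW

namespace Pool.Agent.K1H76.MW

noncomputable section

/-- the largest order -/
def bm (b : ℕ) : ℕ := 2 * b - 2

/-- the first parameter -/
def hv1 (b K L S : ℕ) : ℕ :=
  Nat.sqrt ((2 * K * XS L S) * YS (bm b) K S ^ 2 / (b / 2) + (XS L S * YS (bm b) K S) ^ 2) + 1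

/-- half the order of the poles -/
def hv (b K L S : ℕ) : ℕ := 16 * hv1 b K L S

lemma hv1_sq (b K L S : ℕ) :
    (2 * K * XS L S) * YS (bm b) K S ^ 2 / (b / 2) + (XS L S * YS (bm b) K S) ^ 2 + 1 ≤
      hv1 b K L S ^ 2 := by
  unfold hv1
  exact Nat.lt_succ_sqrt' _

lemma hv1_c1 (b K L S : ℕ) : XS L S * YS (bm b) K S ≤ hv1 b K L S := by
  refine (Nat.pow_le_pow_iff_left (by norm_num : (2 : ℕ) ≠ 0)).1 ?_
  refine le_trans ?_ (hv1_sq b K L S)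
  exact (Nat.le_add_left _ _).trans (Nat.le_succ _)

lemma hv1_c2 {b K L S : ℕ} (hb : 2 ≤ b) :
    2 * K * XS L S * YS (bm b) K S ^ 2 ≤ (b / 2) * hv1 b K L S ^ 2 := by
  have h0 : 0 < b / 2 := by omega
  have h1 := hv1_sq b K L S
  have h2 := Nat.lt_mul_div_succ (2 * K * XS L S * YS (bm b) K S ^ 2) h0
  refine h2.le.trans (Nat.mul_le_mul_left _ (le_trans ?_ h1))
  exact Nat.succ_le_succ (Nat.le_add_right _ _)

/-- the exponents -/
lemma expsv {b K L S : ℕ} (hK : 1 ≤ K) (hS : 1 ≤ S) :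
    4 * bm b + 4 ≤ YS (bm b) K S ∧ YS (bm b) K S ≤ hv1 b K L S ∧
    4 * bm b + 7 + 96 * S ≤ XS L S * YS (bm b) K S ∧ 100 * bm b ≤ hv b K L S ∧
    1000 ≤ hv b K L S := by
  obtain ⟨c, hc⟩ : ∃ c, c = bm b := ⟨_, rfl⟩
  have h3 := hv1_c1 b K L S
  unfold hv
  rw [← hc] at h3 ⊢
  have h1 : 4 * c + 4 ≤ YS c K S := by
    unfold YS
    calc 4 * c + 4 = 4 * ((c + 1) * 1) := by ring
      _ ≤ 4 * ((c + 1) * (rS S + 1)) := Nat.mul_le_mul_left _ (Nat.mul_le_mul_left _ (by omega))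
      _ ≤ 4 * K * ((c + 1) * (rS S + 1)) := by
          apply Nat.mul_le_mul_right
          omega
  have hX : 6 + 96 * S ≤ XS L S := by unfold XS; omega
  have h2 : (6 + 96 * S) * (4 * c + 4) ≤ XS L S * YS c K S := Nat.mul_le_mul hX h1
  have h4 : YS c K S ≤ XS L S * YS c K S := Nat.le_mul_of_pos_left _ (by omega)
  have h5 : (6 + 96 * S) * (4 * c + 4) = 24 * c + 24 + 384 * (S * c) + 384 * S := by ring
  have h6 : c ≤ S * c := Nat.le_mul_of_pos_left _ hS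
  refine ⟨h1, h4.trans h3, by omega, ?_, ?_⟩
  · omega
  · omega

/-- the exponents in Siegel's lemma -/
lemma sie_expv {X Y K h1 n m Eq D b S V v : ℕ} (hn : 1 ≤ n) (hY : 1 ≤ Y) (hX1 : 1 ≤ X)
    (hmK : m ≤ 2 * K) (hEq : Eq ≤ m * (Y * n)) (hD : D ≤ Y * n + (V * (h1 * n)) / m + 1)
    (hc1 : X * Y ≤ h1) (hc2 : 2 * K * X * Y ^ 2 ≤ v * h1 ^ 2) (hV : V = m ∨ V = v)
    (hX : 4 * b + 7 + 96 * S ≤ X * Y) :
    Eq * (X * D + (4 * b + 7 + 96 * S) * n) ≤ 16 * h1 * n * (V * (h1 * n)) := by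
  have hkey : m * (X * Y ^ 2) ≤ V * h1 ^ 2 := by
    rcases hV with rfl | rfl
    · apply Nat.mul_le_mul_left
      calc X * Y ^ 2 = (X * Y) * Y := by ring
        _ ≤ (X * Y) * (X * Y) := Nat.mul_le_mul_left _ (Nat.le_mul_of_pos_left _ hX1)
        _ ≤ h1 * h1 := Nat.mul_le_mul hc1 hc1
        _ = h1 ^ 2 := by ring
    · calc m * (X * Y ^ 2) ≤ 2 * K * (X * Y ^ 2) := Nat.mul_le_mul_right _ hmK
        _ = 2 * K * X * Y ^ 2 := by ring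
        _ ≤ _ := hc2
  obtain ⟨u, hu⟩ : ∃ u, u = (V * (h1 * n)) / m := ⟨_, rfl⟩
  rw [← hu] at hD
  have hmu : m * u ≤ V * (h1 * n) := by rw [hu]; exact Nat.mul_div_le _ _
  have e1 : Eq * u ≤ (Y * n) * (V * (h1 * n)) := by
    calc Eq * u ≤ (m * (Y * n)) * u := Nat.mul_le_mul_right _ hEq
      _ = (Y * n) * (m * u) := by ring
      _ ≤ _ := Nat.mul_le_mul_left _ hmu
  have hYn : Y * n + 1 ≤ 2 * (Y * n) := by
    have : 1 ≤ Y * n := Nat.mul_pos hY hn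
    omega
  have e2 : Eq * (X * (Y * n + 1)) ≤ 2 * (V * h1 ^ 2 * n ^ 2) := by
    calc Eq * (X * (Y * n + 1)) ≤ (m * (Y * n)) * (X * (2 * (Y * n))) :=
          Nat.mul_le_mul hEq (Nat.mul_le_mul_left _ hYn)
      _ = 2 * (m * (X * Y ^ 2) * n ^ 2) := by ring
      _ ≤ 2 * (V * h1 ^ 2 * n ^ 2) := by gcongr
  have e3 : Eq * (X * u) ≤ V * h1 ^ 2 * n ^ 2 := by
    calc Eq * (X * u) = X * (Eq * u) := by ring
      _ ≤ X * ((Y * n) * (V * (h1 * n))) := Nat.mul_le_mul_left _ e1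
      _ = (X * Y) * (V * h1 * n ^ 2) := by ring
      _ ≤ h1 * (V * h1 * n ^ 2) := Nat.mul_le_mul_right _ hc1
      _ = _ := by ring
  have e4 : Eq * ((4 * b + 7 + 96 * S) * n) ≤ V * h1 ^ 2 * n ^ 2 := by
    calc Eq * ((4 * b + 7 + 96 * S) * n) ≤ (m * (Y * n)) * ((X * Y) * n) := by gcongr
      _ = m * (X * Y ^ 2) * n ^ 2 := by ring
      _ ≤ _ := by gcongr
  calc Eq * (X * D + (4 * b + 7 + 96 * S) * n)
      ≤ Eq * (X * (Y * n + u + 1) + (4 * b + 7 + 96 * S) * n) := by gcongr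
    _ = Eq * (X * (Y * n + 1)) + Eq * (X * u) + Eq * ((4 * b + 7 + 96 * S) * n) := by ring
    _ ≤ 2 * (V * h1 ^ 2 * n ^ 2) + V * h1 ^ 2 * n ^ 2 + V * h1 ^ 2 * n ^ 2 :=
        add_le_add (add_le_add e2 e3) e4
    _ = 4 * (V * h1 ^ 2 * n ^ 2) := by ring
    _ ≤ 16 * (V * h1 ^ 2 * n ^ 2) := Nat.mul_le_mul_right _ (by norm_num)
    _ = _ := by ring

end

end Pool.Agent.K1H76.MW
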