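import Pool.Agent.K1H76.MW.Main
import Pool.Agent.R355.Greedy

/-!
# Disjoint sets of linearly independent odd zeta values
-/

set_option autoImplicit false

namespace Pool.Agent.K1H76.MW

open Module Pool.Agent.R355

/-- the number of odd zeta values outside of a rational space of small dimension -/
lemma outside' {b K s S : ℕ} (hK : 1 ≤ K) (hS : 1 ≤ S)
    (hs1 : (2 : ℝ) ^ (66 * S) * ((b : ℝ) + 1) * (K : ℝ) * Real.log (K + 1) ≤ (s : ℝ))
    (hs : (2 : ℝ) ^ (132 * S) * ((b : ℝ) + 1) * (K : ℝ) ^ 3 * Real.log (K + 1) ≤ (s : ℝ) ^ 2)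
    (W : Submodule ℚ ℝ) [FiniteDimensional ℚ W] (h1 : (1 : ℝ) ∈ W) (hW : finrank ℚ W ≤ S) :
    K ≤ Set.ncard {j : ℕ | b < j ∧ j ≤ s ∧ Odd j ∧ (∑' n : ℕ, 1 / ((n : ℝ) + 1) ^ j) ∉ W} := by
  obtain ⟨q0, hq0⟩ := (main b K s S hK hS hs1 hs).2
  obtain ⟨q, hqq, hq1, hq⟩ := approx_of_mem W h1 hW
    (fun j : Fin (s + 1) => ∑' n : ℕ, 1 / ((n : ℝ) + 1) ^ (j : ℕ)) q0
  refine (hq0 q hqq).trans (Set.ncard_le_ncard ?_ ?_)
  · rintro j ⟨g1, g2, g3, g4⟩
    refine ⟨g1, g2, g3, fun hmem => ?_⟩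
    obtain ⟨p, hp⟩ := hq ⟨j, by omega⟩ hmem
    exact absurd hp (not_lt.2 (g4 p))
  · exact (Set.finite_Iic s).subset fun j hj => hj.2.1

/-- disjoint independent sets -/
theorem disjoint_sets' {b K s S d v : ℕ} (hK : 1 ≤ K) (hS : 1 ≤ S)
    (hs1 : (2 : ℝ) ^ (66 * (d * (v + S))) * ((b : ℝ) + 1) * ((K : ℝ) * S) * Real.log ((K : ℝ) * S + 1) ≤
      (s : ℝ))
    (hs : (2 : ℝ) ^ (132 * (d * (v + S))) * ((b : ℝ) + 1) * ((K : ℝ) * S) ^ 3 * Real.log ((K : ℝ) * S + 1) ≤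
      (s : ℝ) ^ 2)
    (F : IntermediateField ℚ ℝ) [FiniteDimensional ℚ F] (hF : finrank ℚ F ≤ d)
    (V : Submodule F ℝ) [Module.Finite F V] (hV : finrank F V ≤ v) :
    ∃ J : Fin K → Finset ℕ, (∀ i i', i ≠ i' → Disjoint (J i) (J i')) ∧ ∀ i, (J i).card = S ∧
      (∀ j ∈ J i, b < j ∧ j ≤ s ∧ Odd j) ∧
      LinearIndependent F (fun j : J i => V.mkQ (∑' n : ℕ, 1 / ((n : ℝ) + 1) ^ (j : ℕ))) := by
  classical
  have hd : 1 ≤ d := le_trans (Nat.one_le_iff_ne_zero.2 finrank_pos.ne') hF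
  obtain ⟨J, hJd, hJ⟩ := greedy (S := S) V K hV (fun j => ∑' n : ℕ, 1 / ((n : ℝ) + 1) ^ j)
    ((Finset.range (s + 1)).filter fun j => b < j ∧ Odd j) (by
      intro U hU hUd T hT
      -- the rational space spanned by `U` and `1`
      have hST : IsScalarTower ℚ F (U.restrictScalars ℚ) := ⟨fun a c x => Subtype.ext (smul_assoc a c (x : ℝ))⟩
      have hUF : Module.Finite F (U.restrictScalars ℚ) := hU
      have hUQ : FiniteDimensional ℚ (U.restrictScalars ℚ) := Module.Finite.trans F (U.restrictScalars ℚ)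
      have h3 : finrank ℚ (U.restrictScalars ℚ) ≤ d * (v + S - 1) := by
        have e : finrank ℚ (U.restrictScalars ℚ) = finrank ℚ F * finrank F U :=
          (Module.finrank_mul_finrank ℚ F (U.restrictScalars ℚ)).symm
        rw [e]
        exact Nat.mul_le_mul hF (by omega)
      have h4 : finrank ℚ (U.restrictScalars ℚ ⊔ Submodule.span ℚ {(1 : ℝ)} : Submodule ℚ ℝ) ≤ d * (v + S) := by
        have h5 := Submodule.finrank_add_le_finrank_add_finrank (U.restrictScalars ℚ) (Submodule.span ℚ {(1 : ℝ)})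
        have h6 : finrank ℚ (Submodule.span ℚ {(1 : ℝ)}) ≤ 1 := finrank_span_le_card {(1 : ℝ)} |>.trans (by simp)
        have h7 : d * (v + S - 1) + d = d * (v + S) := by
          have : v + S = (v + S - 1) + 1 := by omega
          conv_rhs => rw [this]
          ring
        omega
      have hKS : 1 ≤ K * S := Nat.mul_pos hK hS
      have h8 := outside' (K := K * S) hKS (Nat.mul_pos hd (by omega) : 1 ≤ d * (v + S))
        (by push_cast; exact hs1) (by push_cast; exact hs)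
        (U.restrictScalars ℚ ⊔ Submodule.span ℚ {(1 : ℝ)})
        (Submodule.mem_sup_right (Submodule.mem_span_singleton_self _)) h4
      by_contra hcon
      push Not at hcon
      have h9 : {j : ℕ | b < j ∧ j ≤ s ∧ Odd j ∧ (∑' n : ℕ, 1 / ((n : ℝ) + 1) ^ j) ∉
          (U.restrictScalars ℚ ⊔ Submodule.span ℚ {(1 : ℝ)} : Submodule ℚ ℝ)} ⊆ (T : Set ℕ) := by
        rintro j ⟨g1, g2, g3, g4⟩
        by_contra hjT
        have := hcon j (Finset.mem_filter.2 ⟨Finset.mem_range.2 (by omega), g1, g3⟩) hjT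
        exact g4 (Submodule.mem_sup_left this)
      have h10 := Set.ncard_le_ncard h9 T.finite_toSet
      rw [Set.ncard_coe_finset] at h10
      omega)
  refine ⟨J, hJd, fun i => ⟨(hJ i).2.1, fun j hj => ?_, (hJ i).2.2⟩⟩
  have := (hJ i).1 hj
  rw [Finset.mem_filter, Finset.mem_range] at this
  exact ⟨this.2.1, by omega, this.2.2⟩

end Pool.Agent.K1H76.MW
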