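import Pool.Agent.K1H76.MW.Ze2

/-!
# A combination of the right-hand sides of several orders is not a difference
-/

open Polynomial Pool.Agent.H337R2 Pool.Agent.W165.OZ Pool.Agent.Y926.LZ Pool.Agent.Y926.TW
  Pool.Agent.Y926.TW.JTELE

namespace Pool.Agent.K1H76.MW

noncomputable section

theorem ph_inj (y : ℚ) : Function.Injective (ph y) := by
  rw [injective_iff_map_eq_zero]
  intro p hp
  by_contra h
  exact ph_ne y h hp

/-- the Laurent expansion of a rational function at `y` -/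
def phK (y : ℚ) : KK →+* LaurentSeries ℚ := IsFractionRing.lift (A := ℚ[X]) (K := KK) (ph_inj y)

theorem phK_io (y : ℚ) (p : ℚ[X]) : phK y (io p) = ph y p := by
  unfold phK
  rw [IsFractionRing.lift_algebraMap]

theorem phK_sg (y : ℚ) (x : KK) : phK y (sg x) = phK (y - 1) x := by
  obtain ⟨p, q, hq, rfl⟩ := IsFractionRing.div_surjective (A := ℚ[X]) x
  rw [map_div₀, map_div₀, map_div₀, sg_io, sg_io, phK_io, phK_io, phK_io, phK_io, ph_sh, ph_sh]

lemma ph_pole_lt (y w : ℚ) {b b' : ℕ} (hbb : b < b') :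
    (ph y ((X - C w) ^ (b + 1)))⁻¹.coeff (-((b' : ℤ) + 1)) = 0 := by
  by_cases h : y = w
  · subst h
    have h1 : ph y (X - C y) = HahnSeries.single (1 : ℤ) (1 : ℚ) := by
      rw [ph_apply, sub_comp, X_comp, C_comp, add_sub_cancel_right, Polynomial.coe_X,
        HahnSeries.ofPowerSeries_X]
    rw [map_pow, h1, HahnSeries.single_pow, HahnSeries.inv_single, one_pow, inv_one]
    apply HahnSeries.coeff_single_of_ne
    rw [nsmul_eq_mul, mul_one]
    push_cast
    omega
  · have h1 : ((X - C w) ^ (b + 1) : ℚ[X]).eval y ≠ 0 := by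
      rw [eval_pow, eval_sub, eval_X, eval_C]
      exact pow_ne_zero _ (sub_ne_zero.2 h)
    have h2 := ph_reg y h1 1 b'
    rwa [map_one, one_mul] at h2

lemma eta_split (n b B d : ℕ) (hd : d ∈ Finset.Icc 1 B) (y : ℚ) :
    ph y (Y926.TW.eta n b B d) * (ph y (Pi1 n b B))⁻¹ =
      ∑ v ∈ Finset.Icc 1 d, ((ph y (Pf1 b d v))⁻¹ + (ph y (Pf2 n b d v))⁻¹) := by
  unfold Y926.TW.eta
  rw [map_sum, Finset.sum_mul]
  refine Finset.sum_congr rfl fun v hv => ?_
  have hmem : (⟨d, v⟩ : Σ _ : ℕ, ℕ) ∈ Dv B := by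
    unfold Dv
    rw [Finset.mem_sigma]
    exact ⟨hd, hv⟩
  have h2 : Pi1 n b B = (Pf1 b d v * Pf2 n b d v) *
      ∏ q ∈ (Dv B).erase ⟨d, v⟩, (Pf1 b q.1 q.2 * Pf2 n b q.1 q.2) := by
    unfold Pi1
    exact (Finset.mul_prod_erase (Dv B) (fun q : (Σ _ : ℕ, ℕ) => Pf1 b q.1 q.2 * Pf2 n b q.1 q.2)
      hmem).symm
  have hr : ∏ q ∈ (Dv B).erase ⟨d, v⟩, (Pf1 b q.1 q.2 * Pf2 n b q.1 q.2) ≠ 0 :=
    Finset.prod_ne_zero_iff.2 fun q _ => mul_ne_zero (Pf1_ne _ _ _) (Pf2_ne _ _ _ _)
  rw [h2, map_mul, map_mul, map_mul, map_add]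
  have e1 := ph_ne y hr
  have e2 := ph_ne y (Pf1_ne b d v)
  have e3 := ph_ne y (Pf2_ne n b d v)
  generalize ph y (∏ q ∈ (Dv B).erase ⟨d, v⟩, (Pf1 b q.1 q.2 * Pf2 n b q.1 q.2)) = r at *
  generalize ph y (Pf1 b d v) = f1 at *
  generalize ph y (Pf2 n b d v) = f2 at *
  field_simp

/-- the number of `v` -/
def cnt (n : ℕ) (y : ℚ) (d : ℕ) : ℚ := ∑ v ∈ Finset.Icc 1 d,
  ((if y = (v : ℚ) / d then 1 else 0) + (if y = -((n : ℚ) - 2 + (v : ℚ) / d) then 1 else 0))

lemma eta_coeff (n b B d : ℕ) (hd : d ∈ Finset.Icc 1 B) (y : ℚ) :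
    (ph y (Y926.TW.eta n b B d) * (ph y (Pi1 n b B))⁻¹).coeff (-((b : ℤ) + 1)) = cnt n y d := by
  rw [eta_split n b B d hd y, HahnSeries.coeff_sum]
  unfold cnt
  refine Finset.sum_congr rfl fun v _ => ?_
  rw [HahnSeries.coeff_add, Pf2_eq, ph_pole]
  congr 1
  exact ph_pole y ((v : ℚ) / d) b

lemma eta_coeff_lt (n b B d : ℕ) {b' : ℕ} (hbb : b < b') (hd : d ∈ Finset.Icc 1 B) (y : ℚ) :
    (ph y (Y926.TW.eta n b B d) * (ph y (Pi1 n b B))⁻¹).coeff (-((b' : ℤ) + 1)) = 0 := by
  rw [eta_split n b B d hd y, HahnSeries.coeff_sum]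
  refine Finset.sum_eq_zero fun v _ => ?_
  have h1 := ph_pole_lt y (-((n : ℚ) - 2 + (v : ℚ) / d)) hbb
  have h2 := ph_pole_lt y ((v : ℚ) / d) hbb
  rw [HahnSeries.coeff_add, Pf2_eq, h1, add_zero]
  exact h2

/-- a combination of the right-hand sides is a difference only if the weights vanish -/
theorem tel_multi {n b V B : ℕ} {c : ℕ → ℚ} (hn : 1 ≤ n) (hsum : ∑ d ∈ Finset.Icc 1 B, c d = 0)
    {κ : Fin V → ℚ} (hκ : κ ≠ 0) {x : KK}
    (hrel : x - sg x = ∑ i : Fin V, io (C (κ i)) * ∑ d ∈ Finset.Icc 1 B, io (C (c d)) *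
      (io (Y926.TW.eta n (b + 2 * i) B d) / io (Pi1 n (b + 2 * i) B))) :
    ∀ d ∈ Finset.Icc 1 B, c d = 0 := by
  classical
  by_contra hcon
  push Not at hcon
  -- the largest order
  set S0 := Finset.univ.filter (fun i : Fin V => κ i ≠ 0) with hS0
  have hS0ne : S0.Nonempty := by
    obtain ⟨i, hi⟩ := Function.ne_iff.1 hκ
    exact ⟨i, Finset.mem_filter.2 ⟨Finset.mem_univ i, hi⟩⟩
  set i1 := S0.max' hS0ne with hi1
  have hκ1 : κ i1 ≠ 0 := (Finset.mem_filter.1 (S0.max'_mem hS0ne)).2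
  have hκmax : ∀ i, i1 < i → κ i = 0 := by
    intro i hi
    by_contra h
    exact absurd (S0.le_max' i (Finset.mem_filter.2 ⟨Finset.mem_univ i, h⟩)) (not_le.2 hi)
  obtain ⟨b1, hb1⟩ : ∃ b1, b1 = b + 2 * (i1 : ℕ) := ⟨_, rfl⟩
  -- the largest `e` with `c e ≠ 0`
  set S := (Finset.Icc 1 B).filter (fun d => c d ≠ 0) with hS
  have hSne : S.Nonempty := by
    obtain ⟨d, hd, hd'⟩ := hcon
    exact ⟨d, Finset.mem_filter.2 ⟨hd, hd'⟩⟩
  set e := S.max' hSne with he
  have heS : e ∈ S := S.max'_mem hSne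
  have heB : e ∈ Finset.Icc 1 B := (Finset.mem_filter.1 heS).1
  have hce : c e ≠ 0 := (Finset.mem_filter.1 heS).2
  have hmax : ∀ d ∈ Finset.Icc 1 B, e < d → c d = 0 := by
    intro d hd hed
    by_contra h
    exact absurd (S.le_max' d (Finset.mem_filter.2 ⟨hd, h⟩)) (not_le.2 hed)
  have he2 : 2 ≤ e := by
    by_contra h
    have h1 : e = 1 := by
      have := (Finset.mem_Icc.1 heB).1
      omega
    rw [Finset.sum_eq_single e] at hsum
    · exact hce hsum
    · intro d hd hde
      apply hmax d hd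
      have := (Finset.mem_Icc.1 hd).1
      omega
    · intro h; exact absurd heB h
  obtain ⟨u, v, hv', hx⟩ := IsFractionRing.div_surjective (A := ℚ[X]) x
  have hv : v ≠ 0 := nonZeroDivisors.ne_zero hv'
  obtain ⟨M0, hM0⟩ := far v hv
  obtain ⟨M, hM⟩ := exists_nat_ge (|M0| + n + 2)
  have hMn : n + 2 ≤ M := by
    have h1 : ((n + 2 : ℕ) : ℚ) ≤ M := by
      push_cast
      linarith [abs_nonneg M0]
    exact_mod_cast h1
  have he' : (2 : ℚ) ≤ e := by exact_mod_cast he2
  have hx0 : (0 : ℚ) < 1 / e := by positivity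
  have hx1 : (1 : ℚ) / e ≤ 1 := by rw [div_le_one (by positivity)]; linarith
  set F : ℕ → ℚ := fun i => (phK ((1 : ℚ) / e - M - 1 + i) x).coeff (-((b1 : ℤ) + 1)) with hF
  have hreg : ∀ y : ℚ, v.eval y ≠ 0 → (phK y x).coeff (-((b1 : ℤ) + 1)) = 0 := by
    intro y hy
    rw [← hx, map_div₀, phK_io, phK_io, div_eq_mul_inv]
    exact ph_reg y hy u b1
  have hstep : ∀ i : ℕ, κ i1 * ∑ d ∈ Finset.Icc 1 B, c d * cnt n ((1 : ℚ) / e - M + i) d =
      F (i + 1) - F i := by
    intro i
    have hy1 : (1 : ℚ) / e - M - 1 + i = ((1 : ℚ) / e - M + i) - 1 := by ring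
    have hy2 : (1 : ℚ) / e - M - 1 + ((i + 1 : ℕ) : ℚ) = (1 : ℚ) / e - M + i := by push_cast; ring
    simp only [hF]
    rw [hy1, hy2]
    generalize (1 : ℚ) / e - M + i = y
    rw [← HahnSeries.coeff_sub, ← phK_sg, ← map_sub, hrel, map_sum, HahnSeries.coeff_sum]
    have hterm : ∀ i : Fin V, (phK y (io (C (κ i)) * ∑ d ∈ Finset.Icc 1 B, io (C (c d)) *
        (io (Y926.TW.eta n (b + 2 * i) B d) / io (Pi1 n (b + 2 * i) B)))).coeff (-((b1 : ℤ) + 1)) =
        κ i * ∑ d ∈ Finset.Icc 1 B, c d *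
          (ph y (Y926.TW.eta n (b + 2 * i) B d) * (ph y (Pi1 n (b + 2 * i) B))⁻¹).coeff
            (-((b1 : ℤ) + 1)) := by
      intro i
      rw [map_mul, phK_io, ph_C_mul, map_sum, HahnSeries.coeff_sum]
      congr 1
      refine Finset.sum_congr rfl fun d _ => ?_
      rw [map_mul, phK_io, ph_C_mul, map_div₀, phK_io, phK_io, div_eq_mul_inv]
    rw [Finset.sum_congr rfl (fun i _ => hterm i), Finset.sum_eq_single i1]
    · congr 1
      refine Finset.sum_congr rfl fun d hd => ?_
      rw [hb1, eta_coeff n (b + 2 * i1) B d hd y]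
    · intro i _ hi
      rcases lt_or_gt_of_ne hi with h | h
      · rw [Finset.sum_eq_zero, mul_zero]
        intro d hd
        have hlt : (i : ℕ) < (i1 : ℕ) := h
        rw [eta_coeff_lt n (b + 2 * i) B d (b' := b1) (by omega) hd y, mul_zero]
      · rw [hκmax i h, zero_mul]
    · intro h; exact absurd (Finset.mem_univ _) h
  have htel : ∑ i ∈ Finset.range (2 * M + 1), (F (i + 1) - F i) = 0 := by
    rw [Finset.sum_range_sub]
    have h0 : F 0 = 0 := by
      simp only [hF]
      apply hreg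
      apply hM0
      rw [Nat.cast_zero, add_zero, abs_of_nonpos (by linarith [abs_nonneg M0])]
      linarith [le_abs_self M0, abs_nonneg M0]
    have h1 : F (2 * M + 1) = 0 := by
      simp only [hF]
      apply hreg
      apply hM0
      push_cast
      rw [abs_of_nonneg (by linarith [abs_nonneg M0])]
      linarith [le_abs_self M0, abs_nonneg M0]
    rw [h0, h1, sub_zero]
  rw [← Finset.sum_congr rfl (fun i _ => hstep i), ← Finset.mul_sum] at htel
  have htel2 := (mul_eq_zero.1 htel).resolve_left hκ1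
  rw [Finset.sum_comm] at htel2
  -- the count
  have hcount : ∀ d ∈ Finset.Icc 1 B, ∑ i ∈ Finset.range (2 * M + 1),
      c d * cnt n ((1 : ℚ) / e - M + i) d = if d = e then 2 * c e else 0 := by
    intro d hd
    have hd1 := (Finset.mem_Icc.1 hd).1
    by_cases hde : e < d
    · rw [if_neg (by omega), hmax d hd hde]
      simp
    unfold cnt
    rw [← Finset.mul_sum, Finset.sum_comm]
    have h1 : ∀ w ∈ Finset.Icc 1 d, ∑ i ∈ Finset.range (2 * M + 1),
        ((if (1 : ℚ) / e - M + i = (w : ℚ) / d then (1 : ℚ) else 0) +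
        (if (1 : ℚ) / e - M + i = -((n : ℚ) - 2 + (w : ℚ) / d) then 1 else 0)) =
        (if w * e = d then 1 else 0) + (if w * e = d * (e - 1) then 1 else 0) := by
      intro w hw
      have hw' := Finset.mem_Icc.1 hw
      rw [Finset.sum_add_distrib]
      congr 1
      · rw [Finset.sum_eq_single M]
        · exact if_congr ((cnt1 e d w M M he2 hd1 hw'.1 hw'.2).trans (by simp)) rfl rfl
        · intro i _ hi
          rw [if_neg]
          rw [cnt1 e d w M i he2 hd1 hw'.1 hw'.2]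
          exact fun h => hi h.1
        · intro h
          exact absurd (Finset.mem_range.2 (by omega)) h
      · rw [Finset.sum_eq_single (M + 1 - n)]
        · refine if_congr ((cnt2 n e d w M (M + 1 - n) he2 hd1 hw'.1 hw'.2).trans ?_) rfl rfl
          constructor
          · exact fun h => h.2
          · exact fun h => ⟨by omega, h⟩
        · intro i _ hi
          rw [if_neg]
          rw [cnt2 n e d w M i he2 hd1 hw'.1 hw'.2]
          exact fun h => hi (by omega)
        · intro h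
          exact absurd (Finset.mem_range.2 (by omega)) h
    rw [Finset.sum_congr rfl h1, Finset.sum_add_distrib]
    split_ifs with h
    · subst h
      rw [Finset.sum_eq_single 1, Finset.sum_eq_single (e - 1)]
      · rw [one_mul, if_pos rfl, if_pos (mul_comm _ _)]
        ring
      · intro w hw hw1
        rw [if_neg]
        intro h
        apply hw1
        rw [mul_comm] at h
        exact Nat.eq_of_mul_eq_mul_left (by omega) h
      · intro h
        exact absurd (Finset.mem_Icc.2 ⟨by omega, by omega⟩) h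
      · intro w hw hw1
        rw [if_neg]
        intro h
        apply hw1
        have h2 : w * e = 1 * e := by rw [h, one_mul]
        exact Nat.eq_of_mul_eq_mul_right (by omega) h2
      · intro h
        exact absurd (Finset.mem_Icc.2 ⟨le_rfl, by omega⟩) h
    · have hlt : d < e := by omega
      rw [Finset.sum_eq_zero, Finset.sum_eq_zero]
      · ring
      · intro w hw
        rw [if_neg]
        intro h2
        have hcop : Nat.Coprime e (e - 1) := by
          have : e = (e - 1) + 1 := by omega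
          rw [this, Nat.add_sub_cancel]
          exact (Nat.coprime_self_add_left).2 (Nat.coprime_one_left _)
        have h3 : e ∣ d * (e - 1) := ⟨w, by rw [← h2]; ring⟩
        have h4 : e ∣ d := hcop.dvd_of_dvd_mul_right h3
        exact absurd (Nat.le_of_dvd (by omega) h4) (by omega)
      · intro w hw
        rw [if_neg]
        intro h2
        have hw' := Finset.mem_Icc.1 hw
        nlinarith
  rw [Finset.sum_congr rfl hcount, Finset.sum_ite_eq', if_pos heB] at htel2
  exact hce (by linarith)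

end

end Pool.Agent.K1H76.MW
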