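import Pool.Agent.Y926.TW.J_ZE
import Pool.Agent.Y926.TW.J_CAS

/-!
# Zero estimate with several right-hand sides: the determinant

The Casoratian type matrix with the columns `Q_1, …, Q_m, A_1, …, A_V` (instead of a single column `A` in
`Pool/Agent/Y926/TW/J_ZE.lean`).
-/

open Polynomial Pool.Agent.H337R2 Pool.Agent.W165.OZ Pool.Agent.Y926.LZ Pool.Agent.Y926.TW
  Pool.Agent.Y926.TW.ZE

namespace Pool.Agent.K1H76.MW

noncomputable section

/-- a vector in the kernel modulo `d` -/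
theorem dvd_det' {R ι : Type} [CommRing R] [Fintype ι] [DecidableEq ι] (M : Matrix ι ι R) (v : ι → R)
    (d : R) (h : ∀ i, d ∣ (M.mulVec v) i) (j : ι) : d ∣ M.det * v j := by
  have h1 : (M.adjugate.mulVec (M.mulVec v)) j = M.det * v j := by
    rw [Matrix.mulVec_mulVec, Matrix.adjugate_mul, Matrix.smul_mulVec, Matrix.one_mulVec]
    rfl
  rw [← h1]
  show d ∣ ∑ i, M.adjugate j i * (M.mulVec v) i
  exact Finset.dvd_sum (fun i _ => Dvd.dvd.mul_left (h i) _)

/-- several columns which are combinations of the other ones modulo `d` -/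
theorem dvd_det_block {R : Type} [CommRing R] {m V : ℕ}
    (M : Matrix (Fin m ⊕ Fin V) (Fin m ⊕ Fin V) R) (β : Fin m → Fin V → R) (d : R)
    (h : ∀ r i, d ∣ ∑ l, M r (Sum.inl l) * β l i - M r (Sum.inr i)) : d ^ V ∣ M.det := by
  choose q hq using h
  set U : Matrix (Fin m ⊕ Fin V) (Fin m ⊕ Fin V) R :=
    Matrix.fromBlocks 1 (Matrix.of β) 0 (-1) with hU
  set N : Matrix (Fin m ⊕ Fin V) (Fin m ⊕ Fin V) R :=
    fun r => Sum.elim (fun l => M r (Sum.inl l)) (fun i => q r i) with hN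
  set v : Fin m ⊕ Fin V → R := Sum.elim (fun _ => 1) (fun _ => d) with hv
  have h1 : M * U = Matrix.of fun i j => v j * N i j := by
    ext r c
    rcases c with l | i
    · rw [Matrix.mul_apply, Fintype.sum_sum_type]
      simp only [hU, hv, hN, Matrix.fromBlocks_apply₁₁, Matrix.fromBlocks_apply₂₁,
        Matrix.zero_apply, mul_zero, Finset.sum_const_zero, add_zero, Matrix.of_apply, Sum.elim_inl,
        one_mul]
      rw [Finset.sum_eq_single l]
      · rw [Matrix.one_apply_eq, mul_one]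
      · intro l' _ hl'
        rw [Matrix.one_apply_ne hl', mul_zero]
      · intro h; exact absurd (Finset.mem_univ l) h
    · rw [Matrix.mul_apply, Fintype.sum_sum_type]
      simp only [hU, hv, hN, Matrix.fromBlocks_apply₁₂, Matrix.fromBlocks_apply₂₂, Matrix.of_apply,
        Sum.elim_inr, Matrix.neg_apply]
      rw [← hq r i, sub_eq_add_neg]
      congr 1
      rw [Finset.sum_eq_single i]
      · rw [Matrix.one_apply_eq, mul_neg, mul_one]
      · intro l' _ hl'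
        rw [Matrix.one_apply_ne hl', neg_zero, mul_zero]
      · intro h; exact absurd (Finset.mem_univ i) h
  have h2 := congrArg Matrix.det h1
  rw [Matrix.det_mul, Matrix.det_mul_row] at h2
  have h3 : U.det = (-1) ^ V := by
    rw [hU, Matrix.det_fromBlocks_zero₂₁, Matrix.det_one, one_mul, Matrix.det_neg, Matrix.det_one,
      mul_one, Fintype.card_fin]
  have h4 : ∏ i, v i = d ^ V := by
    rw [Fintype.prod_sum_type]
    simp only [hv, Sum.elim_inl, Sum.elim_inr, Finset.prod_const_one, one_mul, Finset.prod_const,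
      Finset.card_univ, Fintype.card_fin]
  rw [h3, h4] at h2
  have h5 : M.det = d ^ V * (N.det * (-1) ^ V) := by
    have h6 : ((-1 : R) ^ V) * (-1) ^ V = 1 := by
      rw [← mul_pow]; simp
    calc M.det = M.det * (((-1 : R) ^ V) * (-1) ^ V) := by rw [h6, mul_one]
      _ = (M.det * (-1) ^ V) * (-1) ^ V := by ring
      _ = _ := by rw [h2]; ring
  exact ⟨_, h5⟩

/-- the numerators -/
def Hv (J : ℕ) (Pj g : ℚ[X]) (j : ℕ) : ℚ[X] := ∑ i ∈ Finset.range j, sh i g * Er J Pj i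

/-- the telescoping congruence -/
theorem telev {n T J : ℕ} {Pj g : ℚ[X]} {β : ℕ → PowerSeries ℚ}
    (h2 : ∀ k, k + 1 < n → (PowerSeries.X : PowerSeries ℚ) ^ T ∣
      TS (-(k : ℚ)) Pj * (β (k + 1) - β k) - TS (-(k : ℚ)) g)
    (k : ℕ) (hk : k + J < n) (j : ℕ) (hj : j ≤ J) :
    (PowerSeries.X : PowerSeries ℚ) ^ T ∣
      TS (-(k : ℚ)) (Pm J Pj) * β (k + j) - TS (-(k : ℚ)) (Pm J Pj) * β k -
        TS (-(k : ℚ)) (Hv J Pj g j) := by
  induction j with
  | zero => simp [Hv]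
  | succ j ih =>
    have ih' := ih (by omega)
    have h3 := h2 (k + j) (by omega)
    have h4 : Hv J Pj g (j + 1) = Hv J Pj g j + sh j g * Er J Pj j := by
      unfold Hv
      rw [Finset.sum_range_succ]
    have h5 : TS (-(k : ℚ)) (Pm J Pj) = TS (-((k + j : ℕ) : ℚ)) Pj * TS (-(k : ℚ)) (Er J Pj j) := by
      rw [← Pm_eq J Pj (i := j) (by omega), map_mul, TS_sh, ← neg_add', ← Nat.cast_add]
    have h6 : TS (-(k : ℚ)) (sh j g) = TS (-((k + j : ℕ) : ℚ)) g := by
      rw [TS_sh, ← neg_add', ← Nat.cast_add]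
    have h7 : TS (-(k : ℚ)) (Pm J Pj) * β (k + (j + 1)) - TS (-(k : ℚ)) (Pm J Pj) * β k -
        TS (-(k : ℚ)) (Hv J Pj g (j + 1)) =
        (TS (-(k : ℚ)) (Pm J Pj) * β (k + j) - TS (-(k : ℚ)) (Pm J Pj) * β k -
        TS (-(k : ℚ)) (Hv J Pj g j)) + TS (-(k : ℚ)) (Er J Pj j) *
          (TS (-((k + j : ℕ) : ℚ)) Pj * (β (k + j + 1) - β (k + j)) -
            TS (-((k + j : ℕ) : ℚ)) g) := by
      rw [h4, map_add, map_mul, h6, h5, ← add_assoc]
      ring
    rw [h7]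
    exact dvd_add ih' (Dvd.dvd.mul_left h3 _)

section main

variable (m V n T b c D DA : ℕ) (Q : Fin m → ℚ[X]) (A : Fin V → ℚ[X]) (Pj : ℚ[X])
  (η : Fin V → Fin m → ℚ[X])

/-- the last columns -/
def Lv (i : Fin V) (j : ℕ) : ℚ[X] :=
  Pm (m + V) Pj * sh j (A i) - ∑ l, sh j (Q l) * Hv (m + V) Pj (η i l) j

/-- the shift belonging to a row -/
def jr {m V : ℕ} (r : Fin m ⊕ Fin V) : ℕ := (finSumFinEquiv r : Fin (m + V)).val

theorem jr_lt {m V : ℕ} (r : Fin m ⊕ Fin V) : jr r < m + V := (finSumFinEquiv r).2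

theorem jr_surj {m V : ℕ} (j : ℕ) (hj : j < m + V) : ∃ r : Fin m ⊕ Fin V, jr r = j := by
  refine ⟨finSumFinEquiv.symm ⟨j, hj⟩, ?_⟩
  unfold jr
  rw [Equiv.apply_symm_apply]

/-- the matrix -/
def MV : Matrix (Fin m ⊕ Fin V) (Fin m ⊕ Fin V) ℚ[X] :=
  fun r => Sum.elim (fun l => sh (jr r) (Q l)) (fun i => Lv m V Q A Pj η i (jr r))

theorem fact1v {β : Fin V → ℕ → Fin m → PowerSeries ℚ}
    (h1 : ∀ i, ∀ k < n, (PowerSeries.X : PowerSeries ℚ) ^ T ∣
      ∑ l, TS (-(k : ℚ)) (Q l) * β i k l - TS (-(k : ℚ)) (A i))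
    (h2 : ∀ i, ∀ k, k + 1 < n → ∀ l, (PowerSeries.X : PowerSeries ℚ) ^ T ∣
      TS (-(k : ℚ)) Pj * (β i (k + 1) l - β i k l) - TS (-(k : ℚ)) (η i l))
    (k : ℕ) (hk : k + (m + V) < n) : (X - C (-(k : ℚ))) ^ (T * V) ∣ (MV m V Q A Pj η).det := by
  apply dvd_of_TS
  rw [RingHom.map_det, pow_mul]
  refine dvd_det_block _ (fun l i => TS (-(k : ℚ)) (Pm (m + V) Pj) * β i k l) _ (fun r i => ?_)
  have hj : jr r ≤ m + V := (jr_lt r).le
  obtain ⟨j, hjr⟩ : ∃ j, j = jr r := ⟨_, rfl⟩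
  have hsh : ∀ p : ℚ[X], TS (-(k : ℚ)) (sh j p) = TS (-((k + j : ℕ) : ℚ)) p := by
    intro p
    rw [TS_sh, ← neg_add', ← Nat.cast_add]
  have e1 : ∑ l, (TS (-(k : ℚ))).mapMatrix (MV m V Q A Pj η) r (Sum.inl l) *
      (TS (-(k : ℚ)) (Pm (m + V) Pj) * β i k l) -
      (TS (-(k : ℚ))).mapMatrix (MV m V Q A Pj η) r (Sum.inr i) =
      TS (-(k : ℚ)) (Pm (m + V) Pj) * (∑ l, TS (-((k + j : ℕ) : ℚ)) (Q l) * β i (k + j) l -
        TS (-((k + j : ℕ) : ℚ)) (A i)) -
      ∑ l, TS (-((k + j : ℕ) : ℚ)) (Q l) *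
        (TS (-(k : ℚ)) (Pm (m + V) Pj) * β i (k + j) l - TS (-(k : ℚ)) (Pm (m + V) Pj) * β i k l -
        TS (-(k : ℚ)) (Hv (m + V) Pj (η i l) j)) := by
    simp only [RingHom.mapMatrix_apply, Matrix.map_apply, MV, Sum.elim_inl, Sum.elim_inr, ← hjr,
      hsh, Lv, map_sub, map_mul, map_sum]
    rw [mul_sub, Finset.mul_sum]
    simp only [mul_sub, Finset.sum_sub_distrib]
    have e2 : ∑ x, TS (-((k + j : ℕ) : ℚ)) (Q x) *
        (TS (-(k : ℚ)) (Pm (m + V) Pj) * β i (k + j) x) =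
        ∑ x, TS (-(k : ℚ)) (Pm (m + V) Pj) * (TS (-((k + j : ℕ) : ℚ)) (Q x) * β i (k + j) x) :=
      Finset.sum_congr rfl fun x _ => by ring
    rw [e2]
    ring
  rw [e1]
  refine dvd_sub (Dvd.dvd.mul_left (h1 i (k + j) (by omega)) _) ?_
  exact Finset.dvd_sum fun l _ => Dvd.dvd.mul_left
    (telev (β := fun k => β i k l) (fun k hk => h2 i k hk l) k hk j (by omega)) _

theorem fact2v (x : ℚ) (a : Fin m → ℚ) (ha : a ≠ 0)
    (h : ∀ j ≤ m + V, (X - C x) ^ (b + 1) ∣ ∑ l, C (a l) * sh j (Q l)) :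
    (X - C x) ^ (b + 1) ∣ (MV m V Q A Pj η).det := by
  obtain ⟨l0, hl0⟩ := Function.ne_iff.1 ha
  have h3 := dvd_det' (MV m V Q A Pj η)
    (Sum.elim (fun l : Fin m => C (a l)) (fun _ => 0)) ((X - C x) ^ (b + 1)) (by
      intro r
      have e1 : (MV m V Q A Pj η).mulVec (Sum.elim (fun l : Fin m => C (a l)) (fun _ => 0)) r =
          ∑ l, C (a l) * sh (jr r) (Q l) := by
        rw [Matrix.mulVec, dotProduct, Fintype.sum_sum_type]
        simp only [MV, Sum.elim_inl, Sum.elim_inr, mul_zero, Finset.sum_const_zero, add_zero]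
        exact Finset.sum_congr rfl fun l _ => mul_comm _ _
      rw [e1]
      exact h (jr r) (jr_lt r).le) (Sum.inl l0)
  rw [Sum.elim_inl] at h3
  have hu : IsUnit (C (a l0)) := Polynomial.isUnit_C.2 (isUnit_iff_ne_zero.2 hl0)
  exact (hu.dvd_mul_right).1 h3

theorem natDegree_Hv (J : ℕ) (g : ℚ[X]) (hPjc : Pj.natDegree ≤ c) (hη : g.natDegree ≤ c) (j : ℕ)
    (hj : j ≤ J) : (Hv J Pj g j).natDegree ≤ J * c := by
  unfold Hv
  refine natDegree_sum_le_of_forall_le _ _ fun i hi => ?_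
  have him : i < J := lt_of_lt_of_le (Finset.mem_range.1 hi) hj
  refine natDegree_mul_le.trans ?_
  have e1 : (Er J Pj i).natDegree ≤ (J - 1) * c := by
    unfold Er
    refine (natDegree_prod_le _ _).trans ?_
    refine (Finset.sum_le_card_nsmul _ _ c fun i' _ => ?_).trans ?_
    · rw [natDegree_sh]; exact hPjc
    · rw [Finset.card_erase_of_mem (Finset.mem_range.2 him), Finset.card_range, smul_eq_mul]
  rw [natDegree_sh]
  obtain ⟨m', rfl⟩ : ∃ m', J = m' + 1 := ⟨J - 1, by omega⟩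
  have e3 : (m' + 1 - 1) * c = m' * c := by congr 1
  rw [e3] at e1
  nlinarith

theorem natDegree_detv (hQ : ∀ l, (Q l).natDegree ≤ D) (hD : D ≤ DA) (hA : ∀ i, (A i).natDegree ≤ DA)
    (hPjc : Pj.natDegree ≤ c) (hη : ∀ i l, (η i l).natDegree ≤ c) :
    (MV m V Q A Pj η).det.natDegree ≤ m * D + V * (DA + (m + V) * c) := by
  rw [Matrix.det_apply]
  refine natDegree_sum_le_of_forall_le _ _ fun σ _ => ?_
  refine (natDegree_smul_le _ _).trans ?_
  refine (natDegree_prod_le _ _).trans ?_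
  rw [Fintype.sum_sum_type]
  have hPm : (Pm (m + V) Pj).natDegree ≤ (m + V) * c := by
    unfold Pm
    refine (natDegree_prod_le _ _).trans ?_
    refine (Finset.sum_le_card_nsmul _ _ c fun i' _ => ?_).trans ?_
    · rw [natDegree_sh]; exact hPjc
    · rw [Finset.card_range, smul_eq_mul]
  have e1 : ∑ l : Fin m, (MV m V Q A Pj η (σ (Sum.inl l)) (Sum.inl l)).natDegree ≤ m * D := by
    refine (Finset.sum_le_card_nsmul _ _ D fun l _ => ?_).trans ?_
    · show (sh (jr (σ (Sum.inl l))) (Q l)).natDegree ≤ D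
      rw [natDegree_sh]
      exact hQ l
    · rw [Finset.card_univ, Fintype.card_fin, smul_eq_mul]
  have e2 : ∑ i : Fin V, (MV m V Q A Pj η (σ (Sum.inr i)) (Sum.inr i)).natDegree ≤
      V * (DA + (m + V) * c) := by
    refine (Finset.sum_le_card_nsmul _ _ (DA + (m + V) * c) fun i _ => ?_).trans ?_
    · show (Lv m V Q A Pj η i (jr (σ (Sum.inr i)))).natDegree ≤ DA + (m + V) * c
      unfold Lv
      refine (natDegree_sub_le _ _).trans (max_le ?_ ?_)
      · refine natDegree_mul_le.trans ?_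
        rw [natDegree_sh]
        have := hA i
        omega
      · refine natDegree_sum_le_of_forall_le _ _ fun l _ => ?_
        refine natDegree_mul_le.trans ?_
        rw [natDegree_sh]
        have h1 := natDegree_Hv c Pj (m + V) (η i l) hPjc (hη i l) (jr (σ (Sum.inr i)))
          (jr_lt _).le
        have h2 := hQ l
        omega
    · rw [Finset.card_univ, Fintype.card_fin, smul_eq_mul]
  exact add_le_add e1 e2

theorem det_zerov {β : Fin V → ℕ → Fin m → PowerSeries ℚ} {Nd : Finset ℚ}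
    (hQ : ∀ l, (Q l).natDegree ≤ D) (hD : D ≤ DA) (hA : ∀ i, (A i).natDegree ≤ DA)
    (hPjc : Pj.natDegree ≤ c) (hη : ∀ i l, (η i l).natDegree ≤ c)
    (h1 : ∀ i, ∀ k < n, (PowerSeries.X : PowerSeries ℚ) ^ T ∣
      ∑ l, TS (-(k : ℚ)) (Q l) * β i k l - TS (-(k : ℚ)) (A i))
    (h2 : ∀ i, ∀ k, k + 1 < n → ∀ l, (PowerSeries.X : PowerSeries ℚ) ^ T ∣
      TS (-(k : ℚ)) Pj * (β i (k + 1) l - β i k l) - TS (-(k : ℚ)) (η i l))
    (h3 : ∀ x ∈ Nd, (∀ k : ℕ, x ≠ -(k : ℚ)) ∧ ∃ a : Fin m → ℚ, a ≠ 0 ∧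
      ∀ j ≤ m + V, (X - C x) ^ (b + 1) ∣ ∑ l, C (a l) * sh j (Q l))
    (h4 : m * D + V * (DA + (m + V) * c) < T * V * (n - (m + V)) + (b + 1) * Nd.card) :
    (MV m V Q A Pj η).det = 0 := by
  classical
  by_contra hne
  have hcop : ∀ (x y : ℚ) (i j : ℕ), x ≠ y → IsCoprime ((X - C x) ^ i) ((X - C y) ^ j) := by
    intro x y i j hxy
    exact IsCoprime.pow (Polynomial.isCoprime_X_sub_C_of_isUnit_sub
      (isUnit_iff_ne_zero.2 (sub_ne_zero.2 hxy)))
  have d1 : ∏ k ∈ Finset.range (n - (m + V)), (X - C (-(k : ℚ))) ^ (T * V) ∣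
      (MV m V Q A Pj η).det := by
    refine Finset.prod_dvd_of_coprime ?_ ?_
    · intro i _ j _ hij
      refine hcop _ _ _ _ ?_
      intro h
      exact hij (by exact_mod_cast neg_injective h)
    · intro k hk
      exact fact1v m V n T Q A Pj η h1 h2 k (by have := Finset.mem_range.1 hk; omega)
  have d2 : ∏ x ∈ Nd, (X - C x) ^ (b + 1) ∣ (MV m V Q A Pj η).det := by
    refine Finset.prod_dvd_of_coprime ?_ ?_
    · intro i _ j _ hij
      exact hcop _ _ _ _ hij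
    · intro x hx
      obtain ⟨_, a, ha, h5⟩ := h3 x hx
      exact fact2v m V b Q A Pj η x a ha h5
  have d3 : IsCoprime (∏ k ∈ Finset.range (n - (m + V)), (X - C (-(k : ℚ))) ^ (T * V))
      (∏ x ∈ Nd, (X - C x) ^ (b + 1)) := by
    refine IsCoprime.prod_left fun k _ => IsCoprime.prod_right fun x hx => ?_
    exact hcop _ _ _ _ (fun h => (h3 x hx).1 k h.symm)
  have d4 := d3.mul_dvd d1 d2
  have hm1 : (∏ k ∈ Finset.range (n - (m + V)), ((X : ℚ[X]) - C (-(k : ℚ))) ^ (T * V)).Monic :=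
    monic_prod_of_monic _ _ fun k _ => (monic_X_sub_C _).pow (T * V)
  have hm2 : (∏ x ∈ Nd, ((X : ℚ[X]) - C x) ^ (b + 1)).Monic :=
    monic_prod_of_monic _ _ fun k _ => (monic_X_sub_C _).pow (b + 1)
  have d5 := natDegree_le_of_dvd d4 hne
  rw [hm1.natDegree_mul hm2, natDegree_prod_of_monic _ _ (fun k _ => (monic_X_sub_C _).pow (T * V)),
    natDegree_prod_of_monic _ _ (fun k _ => (monic_X_sub_C _).pow (b + 1))] at d5
  simp only [natDegree_pow, natDegree_X_sub_C, mul_one, Finset.sum_const, Finset.card_range,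
    smul_eq_mul] at d5
  have d6 := natDegree_detv m V c D DA Q A Pj η hQ hD hA hPjc hη
  have d7 : (n - (m + V)) * (T * V) = T * V * (n - (m + V)) := mul_comm _ _
  have d8 : Nd.card * (b + 1) = (b + 1) * Nd.card := mul_comm _ _
  omega

end main

end

end Pool.Agent.K1H76.MW
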