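import Pool.Agent.K1H76.MW.Ze1
import Pool.Agent.Y926.TW.J_TELE

/-!
# Zero estimate with several right-hand sides: the descent

If the determinant of `Ze1.lean` vanishes, then some non-trivial combination of the right-hand sides
is a difference `u(t) - u(t - 1)` of rational functions.
-/

open Polynomial Pool.Agent.H337R2 Pool.Agent.W165.OZ Pool.Agent.Y926.LZ Pool.Agent.Y926.TW
  Pool.Agent.Y926.TW.ZE

namespace Pool.Agent.K1H76.MW

noncomputable section

/-- rational functions -/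
abbrev KK : Type := FractionRing ℚ[X]

/-- polynomials as rational functions -/
abbrev io : ℚ[X] →+* KK := algebraMap ℚ[X] KK

theorem io_inj : Function.Injective io := IsFractionRing.injective ℚ[X] KK

theorem io_ne {p : ℚ[X]} (hp : p ≠ 0) : io p ≠ 0 := fun h => hp (io_inj (by rw [h, map_zero]))

theorem sig_inj : Function.Injective ((io).comp (shh 1)) := by
  rw [injective_iff_map_eq_zero]
  intro p hp
  have h1 : io (sh 1 p) = 0 := hp
  have h2 : sh 1 p = 0 := io_inj (by rw [h1, map_zero])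
  exact sh_inj h2

/-- the shift `t ↦ t - 1` -/
def sg : KK →+* KK := IsFractionRing.lift (A := ℚ[X]) (K := KK) sig_inj

theorem sg_io (p : ℚ[X]) : sg (io p) = io (sh 1 p) := by
  unfold sg
  rw [IsFractionRing.lift_algebraMap]
  rfl

theorem sg_const (κ : ℚ) : sg (io (C κ)) = io (C κ) := by
  rw [sg_io]
  congr 1
  unfold sh
  rw [C_comp]

/-- the periodic rational functions are constant -/
theorem sg_fixed {x : KK} (h : sg x = x) : ∃ κ : ℚ, x = io (C κ) := by
  obtain ⟨p, q, hq, rfl⟩ := IsFractionRing.div_surjective (A := ℚ[X]) x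
  have hq0 : q ≠ 0 := nonZeroDivisors.ne_zero hq
  rw [map_div₀, sg_io, sg_io, div_eq_div_iff (io_ne (sh_ne hq0)) (io_ne hq0), ← map_mul,
    ← map_mul] at h
  have h1 := io_inj h
  obtain ⟨κ, hκ⟩ := CasJ.periodic hq0 (p := p) (by
    calc sh 1 q * p = p * sh 1 q := mul_comm _ _
      _ = sh 1 p * q := h1.symm
      _ = q * sh 1 p := mul_comm _ _)
  refine ⟨κ, ?_⟩
  rw [div_eq_iff (io_ne hq0), ← map_mul, ← hκ]

theorem ind_sh {m : ℕ} {Q : Fin m → ℚ[X]} (hQ : LinearIndependent ℚ Q) (j : ℕ) :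
    LinearIndependent ℚ (fun l => sh j (Q l)) := by
  rw [Fintype.linearIndependent_iff] at hQ ⊢
  intro g hg
  apply hQ g
  apply sh_inj (j := j)
  rw [sh_sum, ← hg]
  refine Finset.sum_congr rfl fun l _ => ?_
  rw [smul_eq_C_mul, smul_eq_C_mul, sh_mul]
  congr 1
  unfold sh
  rw [C_comp]

/-- the Casoratian over the rational functions -/
theorem casK {m : ℕ} {Q : Fin m → ℚ[X]} (hQ : LinearIndependent ℚ Q) (j0 : ℕ) {p : Fin m → KK}
    (h : ∀ j < m, ∑ l, io (sh (j0 + j) (Q l)) * p l = 0) : p = 0 := by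
  obtain ⟨b, hb⟩ := IsLocalization.exist_integer_multiples_of_finite (nonZeroDivisors ℚ[X]) p
  choose p' hp' using hb
  have hb0 : (b : ℚ[X]) ≠ 0 := nonZeroDivisors.ne_zero b.2
  have hp2 : ∀ l, io (p' l) = io (b : ℚ[X]) * p l := fun l => by
    rw [hp' l, Algebra.smul_def]
  have h0 := t_cas m (fun l => sh j0 (Q l)) (ind_sh hQ j0) p' (by
    intro j hj
    apply io_inj
    rw [map_zero, map_sum]
    have h1 := h j hj
    have h2 : ∑ l, io (sh j (sh j0 (Q l)) * p' l) =
        io (b : ℚ[X]) * ∑ l, io (sh (j0 + j) (Q l)) * p l := by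
      rw [Finset.mul_sum]
      refine Finset.sum_congr rfl fun l _ => ?_
      rw [map_mul, hp2, ZE.sh_sh, Nat.add_comm j j0]
      ring
    rw [h2, h1, mul_zero])
  funext l
  have h3 := hp2 l
  rw [h0, Pi.zero_apply, map_zero] at h3
  exact (mul_eq_zero.1 h3.symm).resolve_left (io_ne hb0)

section desc

variable {m V : ℕ} (Q : Fin m → ℚ[X]) (A : Fin V → ℚ[X]) (Pj : ℚ[X]) (η : Fin V → Fin m → ℚ[X])

/-- the quotients of the numerators and the denominators -/
def rh (g : ℚ[X]) (j : ℕ) : KK := ∑ i ∈ Finset.range j, io (sh i g) / io (sh i Pj)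

theorem rh_succ (g : ℚ[X]) (j : ℕ) : rh Pj g (j + 1) = sg (rh Pj g j) + io g / io Pj := by
  unfold rh
  rw [Finset.sum_range_succ', ZE.sh_zero, ZE.sh_zero, map_sum]
  congr 1
  refine Finset.sum_congr rfl fun i _ => ?_
  rw [map_div₀, sg_io, sg_io, ZE.sh_sh, ZE.sh_sh, Nat.add_comm 1 i]

theorem rh_Hv (hPj : Pj ≠ 0) (J : ℕ) (g : ℚ[X]) (j : ℕ) (hj : j ≤ J) :
    io (Hv J Pj g j) = io (Pm J Pj) * rh Pj g j := by
  unfold Hv rh
  rw [map_sum, Finset.mul_sum]
  refine Finset.sum_congr rfl fun i hi => ?_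
  have hi' : i < J := lt_of_lt_of_le (Finset.mem_range.1 hi) hj
  rw [← Pm_eq J Pj hi', map_mul, map_mul]
  have := io_ne (sh_ne (j := i) hPj)
  field_simp

/-- the rows -/
def Rw (j : ℕ) (p : Fin m → KK) (s : Fin V → KK) : KK :=
  ∑ l, io (sh j (Q l)) * (p l - ∑ i, s i * rh Pj (η i l) j) + ∑ i, s i * io (sh j (A i))

theorem Rw_sub (j : ℕ) (p p' : Fin m → KK) (s s' : Fin V → KK) :
    Rw Q A Pj η j (fun l => p l - p' l) (fun i => s i - s' i) =
      Rw Q A Pj η j p s - Rw Q A Pj η j p' s' := by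
  unfold Rw
  simp only [sub_mul, mul_sub, Finset.sum_sub_distrib]
  ring

theorem Rw_mul (j : ℕ) (c : KK) (p : Fin m → KK) (s : Fin V → KK) :
    Rw Q A Pj η j (fun l => c * p l) (fun i => c * s i) = c * Rw Q A Pj η j p s := by
  unfold Rw
  rw [mul_add, Finset.mul_sum, Finset.mul_sum]
  congr 1
  · refine Finset.sum_congr rfl fun l _ => ?_
    have h : ∑ i, c * s i * rh Pj (η i l) j = c * ∑ i, s i * rh Pj (η i l) j := by
      rw [Finset.mul_sum]
      exact Finset.sum_congr rfl fun i _ => by ring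
    rw [h]
    ring
  · exact Finset.sum_congr rfl fun i _ => by ring

theorem Rw_sg (j : ℕ) (p : Fin m → KK) (s : Fin V → KK) :
    sg (Rw Q A Pj η j p s) = Rw Q A Pj η (j + 1)
      (fun l => sg (p l) + ∑ i, sg (s i) * (io (η i l) / io Pj)) (fun i => sg (s i)) := by
  unfold Rw
  rw [map_add, map_sum, map_sum]
  congr 1
  · refine Finset.sum_congr rfl fun l _ => ?_
    rw [map_mul, sg_io, ZE.sh_sh, Nat.add_comm 1 j, map_sub, map_sum]
    congr 1
    have h : ∑ i, sg (s i) * rh Pj (η i l) (j + 1) =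
        ∑ i, sg (s i * rh Pj (η i l) j) + ∑ i, sg (s i) * (io (η i l) / io Pj) := by
      rw [← Finset.sum_add_distrib]
      refine Finset.sum_congr rfl fun i _ => ?_
      rw [rh_succ, map_mul]
      ring
    rw [h]
    ring
  · refine Finset.sum_congr rfl fun i _ => ?_
    rw [map_mul, sg_io, ZE.sh_sh, Nat.add_comm 1 j]

/-- the descent -/
theorem descent (hQ : LinearIndependent ℚ Q) : ∀ (k : ℕ) (I : Finset (Fin V)), I.card = k →
    ∀ (j0 : ℕ) (p : Fin m → KK) (s : Fin V → KK), (∀ i, i ∉ I → s i = 0) →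
    (∀ j, j0 ≤ j → j < j0 + (m + k) → Rw Q A Pj η j p s = 0) → (p ≠ 0 ∨ s ≠ 0) →
    ∃ κ : Fin V → ℚ, κ ≠ 0 ∧ ∃ u : Fin m → KK, ∀ l,
      u l - sg (u l) = ∑ i, io (C (κ i)) * (io (η i l) / io Pj) := by
  intro k
  induction k with
  | zero =>
    intro I hI j0 p s hs hR hne
    exfalso
    rw [Finset.card_eq_zero] at hI
    have hs0 : s = 0 := by
      funext i
      exact hs i (by rw [hI]; exact Finset.notMem_empty i)
    rcases hne with hp | hp
    · apply hp
      refine casK hQ j0 fun j hj => ?_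
      have := hR (j0 + j) (by omega) (by omega)
      rw [hs0] at this
      simpa [Rw] using this
    · exact hp hs0
  | succ k ih =>
    intro I hI j0 p s hs hR hne
    by_cases hs0 : s = 0
    · exfalso
      rcases hne with hp | hp
      · apply hp
        refine casK hQ j0 fun j hj => ?_
        have := hR (j0 + j) (by omega) (by omega)
        rw [hs0] at this
        simpa [Rw] using this
      · exact hp hs0
    obtain ⟨i0, hi0⟩ := Function.ne_iff.1 hs0
    rw [Pi.zero_apply] at hi0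
    have hi0I : i0 ∈ I := by
      by_contra h
      exact hi0 (hs i0 h)
    obtain ⟨c, hc⟩ : ∃ c, c = (s i0)⁻¹ := ⟨_, rfl⟩
    have hR1 : ∀ j, j0 ≤ j → j < j0 + (m + (k + 1)) →
        Rw Q A Pj η j (fun l => c * p l) (fun i => c * s i) = 0 := by
      intro j h1 h2
      rw [Rw_mul, hR j h1 h2, mul_zero]
    have hc1 : c * s i0 = 1 := by rw [hc]; exact inv_mul_cancel₀ hi0
    obtain ⟨p1, hp1⟩ : ∃ p1 : Fin m → KK, p1 = fun l => c * p l := ⟨_, rfl⟩
    obtain ⟨s1, hs1⟩ : ∃ s1 : Fin V → KK, s1 = fun i => c * s i := ⟨_, rfl⟩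
    rw [← hp1, ← hs1] at hR1
    have hs1i : s1 i0 = 1 := by rw [hs1]; exact hc1
    have hs1I : ∀ i, i ∉ I → s1 i = 0 := by
      intro i hi
      rw [hs1]
      simp only
      rw [hs i hi, mul_zero]
    obtain ⟨p2, hp2⟩ : ∃ p2 : Fin m → KK, p2 = fun l => p1 l -
      (sg (p1 l) + ∑ i, sg (s1 i) * (io (η i l) / io Pj)) := ⟨_, rfl⟩
    obtain ⟨s2, hs2⟩ : ∃ s2 : Fin V → KK, s2 = fun i => s1 i - sg (s1 i) := ⟨_, rfl⟩
    by_cases hne2 : p2 ≠ 0 ∨ s2 ≠ 0
    · refine ih (I.erase i0) (by rw [Finset.card_erase_of_mem hi0I, hI]; rfl) (j0 + 1) p2 s2 ?_ ?_ hne2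
      · intro i hi
        rw [hs2]
        simp only
        by_cases hii : i = i0
        · rw [hii, hs1i, map_one, sub_self]
        · rw [hs1I i (fun h => hi (Finset.mem_erase.2 ⟨hii, h⟩)), map_zero, sub_self]
      · intro j h1 h2
        obtain ⟨j', rfl⟩ : ∃ j', j = j' + 1 := ⟨j - 1, by omega⟩
        rw [hp2, hs2, Rw_sub, hR1 (j' + 1) (by omega) (by omega), ← Rw_sg,
          hR1 j' (by omega) (by omega), map_zero, sub_zero]
    · rw [not_or, not_not, not_not] at hne2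
      obtain ⟨hp0, hs0'⟩ := hne2
      have hfix : ∀ i, sg (s1 i) = s1 i := by
        intro i
        have := congrFun hs0' i
        rw [hs2] at this
        simp only [Pi.zero_apply] at this
        exact (sub_eq_zero.1 this).symm
      choose κ hκ using fun i => sg_fixed (hfix i)
      refine ⟨κ, ?_, p1, ?_⟩
      · intro h0
        have h1 := hκ i0
        rw [hs1i, h0, Pi.zero_apply, C_0, map_zero] at h1
        exact one_ne_zero h1
      · intro l
        have := congrFun hp0 l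
        rw [hp2] at this
        simp only [Pi.zero_apply] at this
        rw [← sub_sub, sub_eq_zero] at this
        rw [this]
        refine Finset.sum_congr rfl fun i _ => ?_
        rw [hfix i, hκ i]

end desc

/-- **The zero estimate with several right-hand sides.** -/
theorem zev {m V n T b c D DA : ℕ} {Q : Fin m → ℚ[X]} {A : Fin V → ℚ[X]} {Pj : ℚ[X]}
    {η : Fin V → Fin m → ℚ[X]} {β : Fin V → ℕ → Fin m → PowerSeries ℚ} {Nd : Finset ℚ}
    (hind : LinearIndependent ℚ Q) (hPj : Pj ≠ 0)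
    (hQ : ∀ l, (Q l).natDegree ≤ D) (hD : D ≤ DA) (hA : ∀ i, (A i).natDegree ≤ DA)
    (hPjc : Pj.natDegree ≤ c) (hη : ∀ i l, (η i l).natDegree ≤ c)
    (h1 : ∀ i, ∀ k < n, (PowerSeries.X : PowerSeries ℚ) ^ T ∣
      ∑ l, TS (-(k : ℚ)) (Q l) * β i k l - TS (-(k : ℚ)) (A i))
    (h2 : ∀ i, ∀ k, k + 1 < n → ∀ l, (PowerSeries.X : PowerSeries ℚ) ^ T ∣
      TS (-(k : ℚ)) Pj * (β i (k + 1) l - β i k l) - TS (-(k : ℚ)) (η i l))
    (h3 : ∀ x ∈ Nd, (∀ k : ℕ, x ≠ -(k : ℚ)) ∧ ∃ a : Fin m → ℚ, a ≠ 0 ∧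
      ∀ j ≤ m + V, (X - C x) ^ (b + 1) ∣ ∑ l, C (a l) * sh j (Q l))
    (h4 : m * D + V * (DA + (m + V) * c) < T * V * (n - (m + V)) + (b + 1) * Nd.card) :
    ∃ κ : Fin V → ℚ, κ ≠ 0 ∧ ∃ u : Fin m → KK, ∀ l,
      u l - sg (u l) = ∑ i, io (C (κ i)) * (io (η i l) / io Pj) := by
  have hdet := det_zerov m V n T b c D DA Q A Pj η hQ hD hA hPjc hη h1 h2 h3 h4
  obtain ⟨w, hw0, hw⟩ := Matrix.exists_mulVec_eq_zero_iff.2 hdet
  have hPm : io (Pm (m + V) Pj) ≠ 0 := io_ne (Pm_ne _ _ hPj)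
  refine descent Q A Pj η hind V Finset.univ (by rw [Finset.card_univ, Fintype.card_fin]) 0
    (fun l => io (w (Sum.inl l))) (fun i => io (w (Sum.inr i)) * io (Pm (m + V) Pj))
    (fun i hi => absurd (Finset.mem_univ i) hi) (fun j _ hj => ?_) ?_
  · obtain ⟨r, hr⟩ := jr_surj (m := m) (V := V) j (by omega)
    have h5 := congrFun hw r
    rw [Matrix.mulVec, dotProduct, Fintype.sum_sum_type] at h5
    simp only [MV, Sum.elim_inl, Sum.elim_inr, hr, Pi.zero_apply] at h5
    have h6 := congrArg io h5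
    rw [map_add, map_sum, map_sum, map_zero] at h6
    rw [← h6]
    unfold Rw Lv
    have e1 : ∀ i, io ((Pm (m + V) Pj * sh j (A i) -
        ∑ l, sh j (Q l) * Hv (m + V) Pj (η i l) j) * w (Sum.inr i)) =
        io (w (Sum.inr i)) * io (Pm (m + V) Pj) * io (sh j (A i)) -
        ∑ l, io (sh j (Q l)) * (io (w (Sum.inr i)) * io (Pm (m + V) Pj) * rh Pj (η i l) j) := by
      intro i
      rw [map_mul, map_sub, map_mul, map_sum, sub_mul, Finset.sum_mul]
      congr 1
      · ring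
      · refine Finset.sum_congr rfl fun l _ => ?_
        rw [map_mul, rh_Hv Pj hPj (m + V) (η i l) j (by omega)]
        ring
    rw [Finset.sum_congr rfl (fun i _ => e1 i), Finset.sum_sub_distrib, Finset.sum_comm]
    have e2 : ∀ l, io (sh j (Q l)) * (io (w (Sum.inl l)) -
        ∑ i, io (w (Sum.inr i)) * io (Pm (m + V) Pj) * rh Pj (η i l) j) =
        io (sh j (Q l) * w (Sum.inl l)) - ∑ i, io (sh j (Q l)) *
          (io (w (Sum.inr i)) * io (Pm (m + V) Pj) * rh Pj (η i l) j) := by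
      intro l
      rw [mul_sub, map_mul, Finset.mul_sum]
    rw [Finset.sum_congr rfl (fun l _ => e2 l), Finset.sum_sub_distrib]
    ring
  · by_contra hcon
    rw [not_or, not_not, not_not] at hcon
    apply hw0
    funext r
    rcases r with l | i
    · exact io_inj (by rw [Pi.zero_apply, map_zero]; exact congrFun hcon.1 l)
    · have h7 := congrFun hcon.2 i
      simp only [Pi.zero_apply] at h7
      exact io_inj (by
        rw [Pi.zero_apply, map_zero]
        exact (mul_eq_zero.1 h7).resolve_right hPm)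

end

end Pool.Agent.K1H76.MW
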